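import Pool.Agent.Helper33.N2.Base
import Pool.Agent.Helper80.NH.Stm

/-!
# The five-chord inequality with half weights (rows BASE and BASEH)
-/

open Real

namespace Pool.Agent.Helper33.N2

/-! ## First step without the sign condition -/

lemma W1n {h k : ℝ} (hh : h ≤ 0) (hk : 0 ≤ k) (hs : -h + k ≤ π / 6) :
    cos h * sin k / 2 ≤ 2 * cos h * cos k - √3 - 2 * sin h + 3
      - 4 * sin (π / 4 - h / 2) * cos (k / 2) := by
  have hpi := pi_pos
  have V := W1 (h := 0) le_rfl hk (by linarith)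
  rw [cos_zero, sin_zero] at V
  obtain ⟨d, hd⟩ : ∃ d, d = -h / 2 := ⟨_, rfl⟩
  have hd0 : 0 ≤ d := by rw [hd]; linarith
  have S0 : 0 ≤ sin d := sin_nonneg_of_nonneg_of_le_pi hd0 (by linarith)
  have C1 : cos d ≤ 1 := cos_le_one d
  have sq := sin_sq_add_cos_sq d
  have e1 : cos h = 1 - 2 * sin d ^ 2 := by
    rw [show h = -(2 * d) by rw [hd]; ring, cos_neg, cos_two_mul, cos_sq']; ring
  have e2 : sin h = -(2 * sin d * cos d) := by
    rw [show h = -(2 * d) by rw [hd]; ring, sin_neg, sin_two_mul]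
  have e3 : sin (π / 4 - h / 2) = √2 / 2 * cos d + √2 / 2 * sin d := by
    rw [show π / 4 - h / 2 = π / 4 + d by rw [hd]; ring, sin_add, sin_pi_div_four,
      cos_pi_div_four]
  have e4 : sin (π / 4 - 0 / 2) = √2 / 2 := by rw [zero_div, sub_zero, sin_pi_div_four]
  rw [e4] at V
  have k1 : √2 / 2 ≤ cos d - sin d := by
    have h22 : √2 * √2 = 2 := by norm_num
    have a : 1 / 2 ≤ cos (π / 4 + d) := by
      rw [← cos_pi_div_three]
      exact cos_le_cos_of_nonneg_of_le_pi (by linarith) (by linarith) (by linarith)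
    rw [cos_add, cos_pi_div_four, sin_pi_div_four] at a
    have b : (√2 / 2 * cos d - √2 / 2 * sin d) * √2 = cos d - sin d := by
      linear_combination (cos d - sin d) / 2 * h22
    have c := mul_le_mul_of_nonneg_right a (sqrt_nonneg 2)
    linarith
  have c0 : 0 ≤ cos (k / 2) := cos_nonneg_of_neg_pi_div_two_le_of_le (by linarith) (by linarith)
  have c1 : cos (k / 2) ≤ 1 := cos_le_one _
  have ks : 0 ≤ sin k := sin_nonneg_of_nonneg_of_le_pi hk (by linarith)
  have kc : cos k ≤ 1 := cos_le_one _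
  have r2 : 0 ≤ √2 := sqrt_nonneg 2
  -- the difference
  have m1 : cos (k / 2) * (√2 / 2 * cos d + √2 / 2 * sin d - √2 / 2) ≤ √2 / 2 * sin d := by
    have x1 : cos (k / 2) * (√2 / 2 * cos d + √2 / 2 * sin d - √2 / 2)
        ≤ cos (k / 2) * (√2 / 2 * sin d) := by
      apply mul_le_mul_of_nonneg_left _ c0
      nlinarith
    have x2 : cos (k / 2) * (√2 / 2 * sin d) ≤ 1 * (√2 / 2 * sin d) :=
      mul_le_mul_of_nonneg_right c1 (by positivity)
    linarith
  have m2 : 0 ≤ sin d * (cos d - sin d - √2 / 2) := mul_nonneg S0 (by linarith)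
  have m3 : 0 ≤ sin d ^ 2 * (1 - cos k) := mul_nonneg (sq_nonneg _) (by linarith)
  have m4 : 0 ≤ sin d ^ 2 * sin k := mul_nonneg (sq_nonneg _) ks
  rw [e1, e2, e3]
  nlinarith

/-- First step. -/
lemma step1' {A B : ℝ} (hA : |A| ≤ π / 6) (hB : |B| ≤ π / 6) :
    |sin A - sin B| / 4 ≤ cos A + cos B - √3 - 2 * sin ((A + B) / 2) + 3
      - 2 * sin (π / 4 - A / 2) - 2 * sin (π / 4 - B / 2) := by
  obtain ⟨a1, a2⟩ := abs_le.mp hA
  obtain ⟨b1, b2⟩ := abs_le.mp hB
  rcases le_total 0 (A + B) with h0 | h0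
  · exact step1 a2 b2 h0
  have hpi := pi_pos
  obtain ⟨h, hh⟩ : ∃ h, h = (A + B) / 2 := ⟨_, rfl⟩
  obtain ⟨k, hk⟩ : ∃ k, k = (A - B) / 2 := ⟨_, rfl⟩
  have eA : A = h + k := by rw [hh, hk]; ring
  have eB : B = h - k := by rw [hh, hk]; ring
  have hs : -h + |k| ≤ π / 6 := by
    rcases abs_cases k with ⟨e, _⟩ | ⟨e, _⟩ <;> rw [e] <;> linarith
  have h00 : h ≤ 0 := by rw [hh]; linarith
  have hk0 := abs_nonneg k
  have w := W1n h00 hk0 hs
  have i1 : cos |k| = cos k := cos_abs k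
  have i2 : cos (|k| / 2) = cos (k / 2) := by
    rw [← cos_abs (k / 2), abs_div, abs_two]
  have i3 : |sin A - sin B| = 2 * cos h * sin |k| := by
    have j1 : sin A - sin B = 2 * cos h * sin k := by
      rw [eA, eB, sin_add, sin_sub]; ring
    have j2 : 0 ≤ cos h := cos_nonneg_of_neg_pi_div_two_le_of_le (by linarith) (by linarith)
    have j3 : |sin k| = sin |k| := by
      rcases le_total 0 k with hc | hc
      · rw [abs_of_nonneg hc, abs_of_nonneg]
        exact sin_nonneg_of_nonneg_of_le_pi hc (by rw [abs_of_nonneg hc] at hs; linarith)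
      · rw [abs_of_nonpos hc, sin_neg, abs_of_nonpos]
        exact sin_nonpos_of_nonpos_of_neg_pi_le hc (by rw [abs_of_nonpos hc] at hs; linarith)
    rw [j1, abs_mul, abs_of_nonneg (by linarith : 0 ≤ 2 * cos h), j3]
  have i4 : cos A + cos B = 2 * cos h * cos k := by
    rw [eA, eB, cos_add, cos_sub]; ring
  have i5 : 2 * sin (π / 4 - A / 2) + 2 * sin (π / 4 - B / 2)
      = 4 * sin (π / 4 - h / 2) * cos (k / 2) := by
    have q1 : sin (π / 4 - A / 2) = sin (π / 4 - h / 2 - k / 2) := by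
      congr 1; rw [eA]; ring
    have q2 : sin (π / 4 - B / 2) = sin (π / 4 - h / 2 + k / 2) := by
      congr 1; rw [eB]; ring
    rw [q1, q2]
    linarith [ss2 (π / 4 - h / 2) (k / 2)]
  rw [i1, i2] at w
  rw [i3, ← hh]
  linarith

/-! ## Real algebra -/

lemma absflip (a b : ℝ) (p q : ℝ) : |p * -a + q * -b| = |p * a + q * b| := by
  rw [← abs_neg]; congr 1; ring

lemma LA {p q r t u v : ℝ} (hp : 0.965 ≤ p) (hq : 0.965 ≤ q)
    (hr : 0.8 ≤ r) (ht : 0.4825 ≤ t) (hu : |u| ≤ 0.2618) (hv : |v| ≤ 0.2618) :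
    4 * u ^ 2 + 2 * v ^ 2 ≤ 0.3177 + 0.707 * u ^ 2 + 0.5176 * (p * u - q * v) ^ 2
      + |r * u + t * v| := by
  have key : ∀ u v : ℝ, 0 ≤ u → |u| ≤ 0.2618 → |v| ≤ 0.2618 →
      4 * u ^ 2 + 2 * v ^ 2 ≤ 0.3177 + 0.707 * u ^ 2 + 0.5176 * (p * u - q * v) ^ 2
        + |r * u + t * v| := by
    intro u v hu0 hu hv
    rw [abs_of_nonneg hu0] at hu
    have hq2 : 0.931 ≤ q ^ 2 := by nlinarith
    have hp2 : 0.931 ≤ p ^ 2 := by nlinarith
    have hpq0 : 0 ≤ p * q := by positivity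
    rcases le_total 0 v with hv0 | hv0
    · rw [abs_of_nonneg hv0] at hv
      have a1 : r * u + t * v ≤ |r * u + t * v| := le_abs_self _
      have b1 : 0.8 * u ≤ r * u := mul_le_mul_of_nonneg_right hr hu0
      have b2 : 0.4825 * v ≤ t * v := mul_le_mul_of_nonneg_right ht hv0
      have e0 := sq_nonneg (p * u - q * v)
      have e1 : u ^ 2 ≤ 0.2618 * u := by nlinarith
      have e2 : v ^ 2 ≤ 0.2618 * v := by nlinarith
      linarith
    · rw [abs_of_nonpos hv0] at hv
      have a0 : 0 ≤ |r * u + t * v| := abs_nonneg _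
      have c0 : 0 ≤ u * (-v) := mul_nonneg hu0 (by linarith)
      have c1 : 0 ≤ (p * q) * (u * (-v)) := mul_nonneg hpq0 c0
      have c3 : 0.931 * v ^ 2 ≤ q ^ 2 * v ^ 2 := mul_le_mul_of_nonneg_right hq2 (sq_nonneg v)
      have c4 : 0.931 * u ^ 2 ≤ p ^ 2 * u ^ 2 := mul_le_mul_of_nonneg_right hp2 (sq_nonneg u)
      have d1 : (p * u - q * v) ^ 2
          = p ^ 2 * u ^ 2 + 2 * ((p * q) * (u * (-v))) + q ^ 2 * v ^ 2 := by ring
      have e1 : u ^ 2 ≤ 0.2618 * 0.2618 := by nlinarith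
      have e2 : v ^ 2 ≤ 0.2618 * 0.2618 := by nlinarith
      rw [d1]
      linarith
  rcases le_total 0 u with h | h
  · exact key u v h hu hv
  · have := key (-u) (-v) (by linarith) (by rwa [abs_neg]) (by rwa [abs_neg])
    have e1 : (p * -u - q * -v) ^ 2 = (p * u - q * v) ^ 2 := by ring
    rw [e1, absflip] at this
    nlinarith

lemma LB {p q a b r t u v : ℝ} (hp : 0.965 ≤ p) (hp1 : p ≤ 1) (hq : 0.965 ≤ q)
    (ha : 0.79 ≤ a) (ha1 : a ≤ 1) (hb : 0.707 ≤ b) (hb1 : b ≤ 1)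
    (hr : 0.955 ≤ r) (ht : 0.4825 ≤ t) (hu : |u| ≤ 0.2618) (hv : |v| ≤ 0.2618) :
    4 * u ^ 2 + 2 * v ^ 2 ≤ 0.91 * u ^ 2 + |a * (p * u - q * v) + b * u| + |r * u + t * v| := by
  have key : ∀ u v : ℝ, 0 ≤ u → |u| ≤ 0.2618 → |v| ≤ 0.2618 →
      4 * u ^ 2 + 2 * v ^ 2 ≤ 0.91 * u ^ 2 + |a * (p * u - q * v) + b * u|
        + |r * u + t * v| := by
    intro u v hu0 hu hv
    rw [abs_of_nonneg hu0] at hu
    have e1 : u ^ 2 ≤ 0.2618 * u := by nlinarith
    have hap : a * p ≤ 1 := by nlinarith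
    have hap0 : 0.762 ≤ a * p := by nlinarith
    have haq0 : 0.762 ≤ a * q := by nlinarith
    rcases le_total 0 v with hv0 | hv0
    · rw [abs_of_nonneg hv0] at hv
      have a1 : r * u + t * v ≤ |r * u + t * v| := le_abs_self _
      have a2 : -(a * (p * u - q * v) + b * u) ≤ |a * (p * u - q * v) + b * u| := neg_le_abs _
      have a3 : 0 ≤ |a * (p * u - q * v) + b * u| := abs_nonneg _
      have b1 : 0.955 * u ≤ r * u := mul_le_mul_of_nonneg_right hr hu0
      have b2 : 0.4825 * v ≤ t * v := mul_le_mul_of_nonneg_right ht hv0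
      have b3 : (a * p) * u ≤ 1 * u := mul_le_mul_of_nonneg_right hap hu0
      have b4 : 0.762 * v ≤ (a * q) * v := mul_le_mul_of_nonneg_right haq0 hv0
      have b5 : b * u ≤ 1 * u := mul_le_mul_of_nonneg_right hb1 hu0
      have e2 : v ^ 2 ≤ 0.2618 * v := by nlinarith
      have d : a * (p * u - q * v) + b * u = (a * p) * u - (a * q) * v + b * u := by ring
      rw [d] at a2 a3 ⊢
      linarith
    · rw [abs_of_nonpos hv0] at hv
      have a0 : 0 ≤ |r * u + t * v| := abs_nonneg _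
      have a2 : a * (p * u - q * v) + b * u ≤ |a * (p * u - q * v) + b * u| := le_abs_self _
      have b3 : 0.762 * u ≤ (a * p) * u := mul_le_mul_of_nonneg_right hap0 hu0
      have b4 : 0.762 * (-v) ≤ (a * q) * (-v) := mul_le_mul_of_nonneg_right haq0 (by linarith)
      have b5 : 0.707 * u ≤ b * u := mul_le_mul_of_nonneg_right hb hu0
      have e2 : v ^ 2 ≤ 0.2618 * (-v) := by nlinarith
      have d : a * (p * u - q * v) + b * u = (a * p) * u + (a * q) * (-v) + b * u := by ring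
      rw [d] at a2 ⊢
      linarith
  rcases le_total 0 u with h | h
  · exact key u v h hu hv
  · have := key (-u) (-v) (by linarith) (by rwa [abs_neg]) (by rwa [abs_neg])
    have e1 : |a * (p * -u - q * -v) + b * -u| = |a * (p * u - q * v) + b * u| := by
      rw [← abs_neg]; congr 1; ring
    rw [e1, absflip] at this
    nlinarith

/-- same signs -/
lemma LC1 {p q r t u v : ℝ} (hp : 0 ≤ p) (hp1 : p ≤ 1) (hq : 0.965 ≤ q) (hq1 : q ≤ 1)
    (hr : 0.85 ≤ r) (ht : 0.4825 ≤ t) (hu0 : 0 ≤ u) (hv0 : 0 ≤ v)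
    (hu : u ≤ 0.1309) (hv : v ≤ 0.2618) :
    4 * u ^ 2 + 2 * v ^ 2 ≤ 0.6 * (p * u - q * v) ^ 2 + |r * u + t * v| := by
  have hq2 : 0.931 ≤ q ^ 2 := by nlinarith
  have hpq1 : p * q ≤ 1 := by nlinarith
  have a1 : r * u + t * v ≤ |r * u + t * v| := le_abs_self _
  have b1 : 0.85 * u ≤ r * u := mul_le_mul_of_nonneg_right hr hu0
  have b2 : 0.4825 * v ≤ t * v := mul_le_mul_of_nonneg_right ht hv0
  have c0 : 0 ≤ u * v := mul_nonneg hu0 hv0
  have c1 : 2 * (p * q) * (u * v) ≤ 2 * (u * v) := by nlinarith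
  have c2 : u * v ≤ 0.2618 * u := by nlinarith
  have c3 : 0.931 * v ^ 2 ≤ q ^ 2 * v ^ 2 := mul_le_mul_of_nonneg_right hq2 (sq_nonneg v)
  have c4 : 0 ≤ p ^ 2 * u ^ 2 := by positivity
  have d1 : (p * u - q * v) ^ 2
      = p ^ 2 * u ^ 2 - 2 * (p * q) * (u * v) + q ^ 2 * v ^ 2 := by ring
  have e1 : u ^ 2 ≤ 0.1309 * u := by nlinarith
  have e2 : v ^ 2 ≤ 0.2618 * v := by nlinarith
  rw [d1]
  linarith

/-- lower bound of the square `(p u + q v)²` -/
lemma sqlow {p q u v : ℝ} (hp : 0.965 ≤ p) (hq : 0.99 ≤ q) (hu0 : 0 ≤ u) (hv0 : 0 ≤ v) :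
    0.931 * u ^ 2 + 0.98 * v ^ 2 + 1.91 * (u * v) ≤ (p * u + q * v) ^ 2 := by
  have a : 0.965 * u + 0.99 * v ≤ p * u + q * v := by
    have := mul_le_mul_of_nonneg_right hp hu0
    have := mul_le_mul_of_nonneg_right hq hv0
    linarith
  have b : (0.965 * u + 0.99 * v) ^ 2 ≤ (p * u + q * v) ^ 2 :=
    pow_le_pow_left₀ (by positivity) a 2
  nlinarith [mul_nonneg hu0 hv0, sq_nonneg u, sq_nonneg v]

/-- opposite signs: one of the two exchanges wins -/
lemma LC2 {p q a b r t u v e G : ℝ} (hp : 0.965 ≤ p) (hq : 0.99 ≤ q)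
    (ha : 0.707 ≤ a) (hb : 0.793 ≤ b) (hr : 0.85 ≤ r) (hr1 : r ≤ 0.966)
    (ht : 0.4825 ≤ t) (ht1 : t ≤ 0.5) (hu0 : 0 ≤ u) (hv0 : 0 ≤ v) (he : 0 ≤ e)
    (hue : u + e ≤ 0.1309) (hv : v ≤ 0.2618) (hG : 0.011 + 0.278 * e ≤ G) :
    (0 < G - 2.864 * u ^ 2 - 2 * v ^ 2 + 0.608 * (p * u + q * v) ^ 2 + |r * u - t * v|) ∨
    (0 < G - 1.5872 * e - 3.114 * u ^ 2 - 2 * v ^ 2 + 0.912 * (p * u + q * v) ^ 2
      + (a * (p * u + q * v) + b * u) + |r * u - t * v|) := by
  by_contra hcon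
  rw [not_or, not_lt, not_lt] at hcon
  obtain ⟨h1, h2⟩ := hcon
  have s := sqlow hp hq hu0 hv0
  have L : 1.475 * u + 0.699 * v ≤ a * (p * u + q * v) + b * u := by
    have x1 : 0.682 ≤ a * p := by nlinarith
    have x2 : 0.699 ≤ a * q := by nlinarith
    have y1 := mul_le_mul_of_nonneg_right x1 hu0
    have y2 := mul_le_mul_of_nonneg_right x2 hv0
    have y3 := mul_le_mul_of_nonneg_right hb hu0
    have d : a * (p * u + q * v) + b * u = (a * p) * u + (a * q) * v + b * u := by ring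
    rw [d]
    linarith
  have z1 : 0.85 * u - 0.5 * v ≤ |r * u - t * v| := by
    have y1 := mul_le_mul_of_nonneg_right hr hu0
    have y2 := mul_le_mul_of_nonneg_right ht1 hv0
    linarith [le_abs_self (r * u - t * v)]
  have z2 : 0.4825 * v - 0.966 * u ≤ |r * u - t * v| := by
    have y1 := mul_le_mul_of_nonneg_right hr1 hu0
    have y2 := mul_le_mul_of_nonneg_right ht hv0
    linarith [neg_le_abs (r * u - t * v)]
  have z0 : 0 ≤ |r * u - t * v| := abs_nonneg _
  have c0 : 0 ≤ u * v := mul_nonneg hu0 hv0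
  have e2 : v ^ 2 ≤ 0.2618 * v := by nlinarith
  have e1 : u ^ 2 ≤ 0.1309 * u := by nlinarith
  rcases le_total v (1.4 * u) with hc | hc
  · have f : v ^ 2 ≤ 1.4 * (u * v) := by nlinarith
    nlinarith
  · have f : 1.4 * u ^ 2 ≤ u * v := by nlinarith
    rcases le_total u 0.046 with hd | hd
    · nlinarith
    · nlinarith

/-- opposite signs, the stronger bound -/
lemma LH2 {p q r t u v e G : ℝ} (hp : 0.965 ≤ p) (hq : 0.99 ≤ q)
    (hr1 : r ≤ 0.966)
    (ht : 0.4825 ≤ t) (hu0 : 0 ≤ u) (hv0 : 0 ≤ v)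
    (hue : u + e ≤ 0.1309) (huv : 2 * u + v ≤ 2 * e) (hG : 0.0368 ≤ G) :
    0.024 < G - 2.864 * u ^ 2 - 2 * v ^ 2 + 0.608 * (p * u + q * v) ^ 2 + |r * u - t * v| := by
  have s := sqlow hp hq hu0 hv0
  have z2 : 0.4825 * v - 0.966 * u ≤ |r * u - t * v| := by
    have y1 := mul_le_mul_of_nonneg_right hr1 hu0
    have y2 := mul_le_mul_of_nonneg_right ht hv0
    linarith [neg_le_abs (r * u - t * v)]
  have z0 : 0 ≤ |r * u - t * v| := abs_nonneg _
  have c0 : 0 ≤ u * v := mul_nonneg hu0 hv0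
  have g : 4 * u + v ≤ 0.2618 := by linarith
  rcases le_total v (2 * u) with hc | hc
  · nlinarith [mul_nonneg hu0 (by linarith : 0 ≤ 0.2618 - 4 * u - v),
      mul_nonneg hv0 (by linarith : 0 ≤ 0.2618 - 4 * u - v),
      mul_nonneg hv0 (by linarith : 0 ≤ 2 * u - v), mul_nonneg hu0 (by linarith : 0 ≤ 2 * u - v)]
  · nlinarith [mul_nonneg hu0 (by linarith : 0 ≤ 0.2618 - 4 * u - v),
      mul_nonneg (by linarith : 0 ≤ v - 2 * u) (by linarith : 0 ≤ 0.2618 - 4 * u - v),
      mul_nonneg hu0 (by linarith : 0 ≤ v - 2 * u)]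

/-! ## Trigonometric numbers -/

lemma S24a : 0.1305 ≤ sin (π / 24) := by
  have p1 := pi_gt_d4
  have p2 := pi_lt_d4
  have a := sin_gt_sub_cube (by linarith : 0 < π / 24)
  have c : (π / 24) ^ 3 ≤ 0.1309 ^ 3 := pow_le_pow_left₀ (by linarith) (by linarith) 3
  have d : (0.1309:ℝ) ^ 3 / 6 ≤ 0.00038 := by norm_num
  linarith

lemma S24b : sin (π / 24) ≤ 0.1309 := by
  have p1 := pi_gt_d4
  have p2 := pi_lt_d4
  have := sin_le (by linarith : 0 ≤ π / 24)
  linarith

lemma C24a : 0.9914 ≤ cos (π / 24) := by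
  have p1 := pi_gt_d4
  have p2 := pi_lt_d4
  have a := one_sub_sq_div_two_le_cos (x := π / 24)
  have c : (π / 24) ^ 2 ≤ 0.1309 ^ 2 := pow_le_pow_left₀ (by linarith) (by linarith) 2
  norm_num at c
  linarith

lemma C24b : cos (π / 24) ≤ 0.9915 := by
  have a := cos_le_sin (w := π / 24)
  have b := S24a
  nlinarith

lemma C12b : cos (π / 12) ≤ 0.966 := by
  have h : cos (π / 12) ^ 2 = 1 / 2 + √3 / 4 := by
    rw [cos_sq, show 2 * (π / 12) = π / 6 by ring, cos_pi_div_six]; ring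
  have b := s3b
  by_contra hc
  rw [not_le] at hc
  nlinarith

lemma S12a : 0.2588 ≤ sin (π / 12) := by
  have p1 := pi_gt_d4
  have p2 := pi_lt_d4
  have a := sin_gt_sub_cube (by linarith : 0 < π / 12)
  have c : (π / 12) ^ 3 ≤ 0.2618 ^ 3 := pow_le_pow_left₀ (by linarith) (by linarith) 3
  have d : (0.2618:ℝ) ^ 3 / 6 ≤ 0.002991 := by norm_num
  linarith

lemma C524b : cos (5 * π / 24) ≤ 0.7936 := by
  rw [show 5 * π / 24 = π / 6 + π / 24 by ring, cos_add, cos_pi_div_six, sin_pi_div_six]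
  have a := C24b
  have b := S24a
  have c := s3b
  have d := C24a
  nlinarith

lemma C524a : 0.793 ≤ cos (5 * π / 24) := by
  rw [show 5 * π / 24 = π / 6 + π / 24 by ring, cos_add, cos_pi_div_six, sin_pi_div_six]
  have a := C24a
  have b := S24b
  have c := s3a
  nlinarith

lemma S524a : 0.608 ≤ sin (5 * π / 24) := by
  rw [show 5 * π / 24 = π / 6 + π / 24 by ring, sin_add, cos_pi_div_six, sin_pi_div_six]
  have a := C24a
  have b := S24a
  have c := s3a
  nlinarith

/-- lower bound of `g34` as a quadratic in `sin w` -/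
lemma g34q (w : ℝ) : -0.0964 + 1.09636 * sin w - 2.08579 * sin w ^ 2 - 0.00005 * |sin w| ≤
    √3 + 2 * cos (2 * w) - 4 * sin (π / 4 - w) - 2 * sin (π / 6 + w) := by
  have e1 : sin (π / 4 - w) = √2 / 2 * cos w - √2 / 2 * sin w := by
    rw [sin_sub, sin_pi_div_four, cos_pi_div_four]
  have e2 : sin (π / 6 + w) = 1 / 2 * cos w + √3 / 2 * sin w := by
    rw [sin_add, cos_pi_div_six, sin_pi_div_six]
  have e3 : cos (2 * w) = 1 - 2 * sin w ^ 2 := by
    rw [cos_two_mul, cos_sq']; ring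
  have hc := cos_le_sin (w := w)
  rw [e1, e2, e3]
  have x1 := s2a
  have x2 := s2b
  have x3 := s3a
  have x4 := s3b
  have y1 : (2 * √2 + 1) * cos w ≤ (2 * √2 + 1) * (1 - sin w ^ 2 / 2) :=
    mul_le_mul_of_nonneg_left hc (by linarith)
  have y4 : √2 * sin w ^ 2 ≥ 1.41421 * sin w ^ 2 :=
    mul_le_mul_of_nonneg_right x1.le (sq_nonneg _)
  have y5 : -(2 * √2 - √3 - 1.09636) * sin w ≤ 0.00005 * |sin w| := by
    calc -(2 * √2 - √3 - 1.09636) * sin w ≤ |-(2 * √2 - √3 - 1.09636) * sin w| := le_abs_self _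
      _ = |2 * √2 - √3 - 1.09636| * |sin w| := by rw [abs_mul, abs_neg]
      _ ≤ 0.00005 * |sin w| := by
          apply mul_le_mul_of_nonneg_right _ (abs_nonneg _)
          rw [abs_le]; constructor <;> linarith
  nlinarith

lemma g34lin {w : ℝ} (h0 : π / 24 ≤ w) (h1 : w ≤ π / 12) :
    0.011 + 0.278 * (w - π / 24) ≤
      √3 + 2 * cos (2 * w) - 4 * sin (π / 4 - w) - 2 * sin (π / 6 + w) := by
  have p1 := pi_gt_d4
  have p2 := pi_lt_d4
  have q := g34q w
  have s0 : 0 < w := by linarith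
  have hq1 : sin w ≤ 0.2589 := by
    have a : sin w ≤ sin (π / 12) :=
      sin_le_sin_of_le_of_le_pi_div_two (by linarith) (by linarith) h1
    have b : sin (π / 12) ≤ 0.2589 := by
      have h : sin (π / 12) ^ 2 = 1 / 2 - √3 / 4 := by
        rw [sin_sq, cos_sq, show 2 * (π / 12) = π / 6 by ring, cos_pi_div_six]; ring
      have := s3a
      by_contra hc
      rw [not_le] at hc
      nlinarith
    linarith
  have hq0 : 0.1305 ≤ sin w := by
    have b : sin (π / 24) ≤ sin w :=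
      sin_le_sin_of_le_of_le_pi_div_two (by linarith) (by linarith) h0
    linarith [S24a]
  have hq2 : 0.1305 + 0.98 * (w - π / 24) ≤ sin w := by
    have a := sin_gt_sub_cube s0
    have b1 : 0 ≤ w * ((w - 0.1308) * (0.2618 - w)) :=
      mul_nonneg s0.le (mul_nonneg (by linarith) (by linarith))
    have b2 : 0 ≤ (w - 0.1308) * (0.2618 - w) := mul_nonneg (by linarith) (by linarith)
    nlinarith
  rw [abs_of_nonneg (by linarith)] at q
  have y2 : 0 ≤ (sin w - 0.1305) * (0.2589 - sin w) :=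
    mul_nonneg (by linarith) (by linarith)
  nlinarith

lemma g34H {w : ℝ} (h0 : 11 * π / 180 ≤ w) (h1 : w ≤ π / 12) :
    0.0368 ≤ √3 + 2 * cos (2 * w) - 4 * sin (π / 4 - w) - 2 * sin (π / 6 + w) := by
  have p1 := pi_gt_d4
  have p2 := pi_lt_d4
  have q := g34q w
  have hq1 : sin w ≤ 0.2618 := by
    have := sin_le (by linarith : 0 ≤ w)
    linarith
  have hq0 : 0.1907 ≤ sin w := by
    have a := sin_gt_sub_cube (by linarith : 0 < 11 * π / 180)
    have b : sin (11 * π / 180) ≤ sin w :=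
      sin_le_sin_of_le_of_le_pi_div_two (by linarith) (by linarith) h0
    have c : (11 * π / 180) ^ 3 ≤ 0.19199 ^ 3 := pow_le_pow_left₀ (by linarith) (by linarith) 3
    have d : (0.19199:ℝ) ^ 3 / 6 ≤ 0.00118 := by norm_num
    linarith
  rw [abs_of_nonneg (by linarith)] at q
  have y2 : 0 ≤ (sin w - 0.1907) * (0.2618 - sin w) :=
    mul_nonneg (by linarith) (by linarith)
  nlinarith

lemma gmix {w : ℝ} (h0 : 0 ≤ w) (h1 : w ≤ π / 24) :
    0 < √3 + 2 * cos (2 * w) - 3 * sin (π / 4 - w) - 3 * sin (π / 6 + w) := by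
  have p1 := pi_gt_d4
  have p2 := pi_lt_d4
  have e1 : sin (π / 4 - w) = √2 / 2 * cos w - √2 / 2 * sin w := by
    rw [sin_sub, sin_pi_div_four, cos_pi_div_four]
  have e2 : sin (π / 6 + w) = 1 / 2 * cos w + √3 / 2 * sin w := by
    rw [sin_add, cos_pi_div_six, sin_pi_div_six]
  have e3 : cos (2 * w) = 1 - 2 * sin w ^ 2 := by
    rw [cos_two_mul, cos_sq']; ring
  have hq1 : sin w ≤ 0.1309 := by
    have := sin_le h0
    linarith
  have hq0 : 0 ≤ sin w := sin_nonneg_of_nonneg_of_le_pi h0 (by linarith)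
  have hc := cos_le_sin (w := w)
  rw [e1, e2, e3]
  have x1 := s2a
  have x2 := s2b
  have x3 := s3a
  have x4 := s3b
  have y1 : (3 * √2 / 2 + 3 / 2) * cos w ≤ (3 * √2 / 2 + 3 / 2) * (1 - sin w ^ 2 / 2) :=
    mul_le_mul_of_nonneg_left hc (by linarith)
  have y3 : (3 * √3 / 2 - 3 * √2 / 2) * sin w ≤ 0.477 * sin w :=
    mul_le_mul_of_nonneg_right (by linarith) hq0
  have y4 : √2 * sin w ^ 2 ≥ 1.41421 * sin w ^ 2 :=
    mul_le_mul_of_nonneg_right x1.le (sq_nonneg _)
  have y5 : sin w ^ 2 ≤ 0.01714 := by nlinarith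
  nlinarith

lemma g25n' {w : ℝ} (h0 : -(π / 12) ≤ w) (h1 : w ≤ 0) :
    0.3178 ≤ √3 + 2 * cos (2 * w) - 2 * sin (π / 4 - w) - 4 * sin (π / 6 + w) := by
  have p1 := pi_gt_d4
  have p2 := pi_lt_d4
  have e1 : sin (π / 4 - w) = √2 / 2 * cos w - √2 / 2 * sin w := by
    rw [sin_sub, sin_pi_div_four, cos_pi_div_four]
  have e2 : sin (π / 6 + w) = 1 / 2 * cos w + √3 / 2 * sin w := by
    rw [sin_add, cos_pi_div_six, sin_pi_div_six]
  have e3 : cos (2 * w) = 1 - 2 * sin w ^ 2 := by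
    rw [cos_two_mul, cos_sq']; ring
  have hq0 : sin w ≤ 0 := sin_nonpos_of_nonpos_of_neg_pi_le h1 (by linarith)
  have hq1 : -0.2618 ≤ sin w := by
    have := le_sin h1
    linarith
  have hc := cos_le_sin (w := w)
  rw [e1, e2, e3]
  have x1 := s2a
  have x2 := s2b
  have x3 := s3a
  have x4 := s3b
  have y1 : (√2 + 2) * cos w ≤ (√2 + 2) * (1 - sin w ^ 2 / 2) :=
    mul_le_mul_of_nonneg_left hc (by linarith)
  have y3 : 2 * (-sin w) ≤ (2 * √3 - √2) * (-sin w) :=
    mul_le_mul_of_nonneg_right (by linarith) (by linarith)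
  have y4 : √2 * sin w ^ 2 ≥ 1.41421 * sin w ^ 2 :=
    mul_le_mul_of_nonneg_right x1.le (sq_nonneg _)
  have y5 : sin w ^ 2 ≤ 0.2618 * (-sin w) := by nlinarith
  nlinarith

/-! ## The core in half sums -/

/-- common part -/
noncomputable def FF (w x y : ℝ) : ℝ :=
  |2 * cos (2 * w) * sin (2 * x) + sin (2 * y)| / 4 + √3 - 1 + 2 * cos (2 * w) * cos (2 * x)
    + cos (2 * y)

lemma FF_eq (w x y : ℝ) : FF w x y = |cos (2 * w) * cos x * sin x + cos y / 2 * sin y| + √3
    + 2 * cos (2 * w) - 4 * cos (2 * w) * sin x ^ 2 - 2 * sin y ^ 2 := by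
  have T1 : |2 * cos (2 * w) * sin (2 * x) + sin (2 * y)| / 4
      = |cos (2 * w) * cos x * sin x + cos y / 2 * sin y| := by
    have : 2 * cos (2 * w) * sin (2 * x) + sin (2 * y)
        = 4 * (cos (2 * w) * cos x * sin x + cos y / 2 * sin y) := by
      rw [sin_two_mul, sin_two_mul]; ring
    rw [this, abs_mul, abs_of_pos (by norm_num : (0:ℝ) < 4)]; ring
  have c2x : cos (2 * x) = 1 - 2 * sin x ^ 2 := by rw [cos_two_mul, cos_sq']; ring
  have c2y : cos (2 * y) = 1 - 2 * sin y ^ 2 := by rw [cos_two_mul, cos_sq']; ring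
  unfold FF
  rw [T1, c2x, c2y]; ring

lemma sxy (x y : ℝ) : sin (x - y) = cos y * sin x - cos x * sin y := by rw [sin_sub]; ring

lemma KA {w x y : ℝ} (hw0 : w ≤ 0) (hwx : -w + |x| ≤ π / 12) (hy : |y| ≤ π / 12) :
    0 < FF w x y - 2 * sin (π / 4 - w) * cos x - 4 * sin (π / 6 + w) * cos (x - y) := by
  have p1 := pi_gt_d4
  have p2 := pi_lt_d4
  have hx0 := abs_nonneg x
  have hx : |x| ≤ π / 12 := by linarith
  have g := g25n' (by linarith : -(π / 12) ≤ w) hw0
  have hu : |sin x| ≤ 0.2618 := abs_sin_le (by linarith)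
  have hv : |sin y| ≤ 0.2618 := abs_sin_le (by linarith)
  have cx : 0.965 ≤ cos x := cos_lo12 hx
  have cy : 0.965 ≤ cos y := cos_lo12 hy
  have cw : √3 / 2 ≤ cos (2 * w) := cos_lo (by rw [abs_of_nonpos (by linarith)]; linarith)
  have cw1 : cos (2 * w) ≤ 1 := cos_le_one _
  have hr : 0.8 ≤ cos (2 * w) * cos x := by nlinarith [s3a]
  have L := LA (p := cos y) (q := cos x) (r := cos (2 * w) * cos x) (t := cos y / 2)
    (u := sin x) (v := sin y) cy cx hr (by linarith) hu hv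
  have n1 : 0.707 ≤ sin (π / 4 - w) := by
    have : sin (π / 4) ≤ sin (π / 4 - w) :=
      sin_le_sin_of_le_of_le_pi_div_two (by linarith) (by linarith) (by linarith)
    rw [sin_pi_div_four] at this
    linarith [s2a]
  have n2 : 0.2588 ≤ sin (π / 6 + w) := by
    have : sin (π / 12) ≤ sin (π / 6 + w) :=
      sin_le_sin_of_le_of_le_pi_div_two (by linarith) (by linarith) (by linarith)
    linarith [S12a]
  have m1 : sin (π / 4 - w) * cos x ≤ sin (π / 4 - w) - 0.707 / 2 * sin x ^ 2 := by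
    have h := cos_le_sin (w := x)
    nlinarith [sq_nonneg (sin x)]
  have m2 : sin (π / 6 + w) * cos (x - y)
      ≤ sin (π / 6 + w) - 0.2588 / 2 * (cos y * sin x - cos x * sin y) ^ 2 := by
    rw [← sxy]
    have h := cos_le_sin (w := x - y)
    nlinarith [sq_nonneg (sin (x - y))]
  have n5 : cos (2 * w) * sin x ^ 2 ≤ sin x ^ 2 := by nlinarith [sq_nonneg (sin x)]
  rw [FF_eq]
  linarith

lemma KB {w x y : ℝ} (hw0 : 0 ≤ w) (hw : w ≤ π / 24) (hwx : w + |x| ≤ π / 12)
    (hy : |y| ≤ π / 12) :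
    0 < FF w x y - 3 * sin (π / 4 - w) * cos x - 3 * sin (π / 6 + w) * cos (x - y)
      + |cos (π / 6 + w) * sin (x - y) + cos (π / 4 - w) * sin x| := by
  have p1 := pi_gt_d4
  have p2 := pi_lt_d4
  have hx0 := abs_nonneg x
  have hx : |x| ≤ π / 12 := by linarith
  have g := gmix hw0 hw
  have hu : |sin x| ≤ 0.2618 := abs_sin_le (by linarith)
  have hv : |sin y| ≤ 0.2618 := abs_sin_le (by linarith)
  have cx : 0.965 ≤ cos x := cos_lo12 hx
  have cy : 0.965 ≤ cos y := cos_lo12 hy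
  have cy1 := cos_le_one y
  have cw1 : cos (2 * w) ≤ 1 := cos_le_one _
  have w1 : w ≤ 0.1309 := by linarith
  have hcw : 0.9914 ≤ cos w := by
    have a := one_sub_sq_div_two_le_cos (x := w)
    nlinarith
  have hsw : sin w ≤ 0.1309 := by
    have := sin_le hw0
    linarith
  have hsw0 : 0 ≤ sin w := sin_nonneg_of_nonneg_of_le_pi hw0 (by linarith)
  have hr : 0.955 ≤ cos (2 * w) * cos x := by
    have a := one_sub_sq_div_two_le_cos (x := 2 * w)
    have b := one_sub_sq_div_two_le_cos (x := x)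
    have c : x ^ 2 ≤ (0.2618 - w) ^ 2 := by
      rw [← sq_abs x]
      exact pow_le_pow_left₀ hx0 (by linarith) 2
    have d : 0.95 ≤ cos (2 * w) := by nlinarith
    have a' : 1 - 2 * w ^ 2 ≤ cos (2 * w) := by nlinarith
    have e : (1 - 2 * w ^ 2) * (1 - x ^ 2 / 2) ≤ cos (2 * w) * cos x :=
      mul_le_mul a' b (by nlinarith) (by linarith)
    have f : 1 - 2 * w ^ 2 - x ^ 2 / 2 ≤ (1 - 2 * w ^ 2) * (1 - x ^ 2 / 2) := by
      nlinarith [mul_nonneg (sq_nonneg w) (sq_nonneg x)]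
    have g1 : 0 ≤ w * (0.1309 - w) := mul_nonneg hw0 (by linarith)
    nlinarith
  have n1 : 0.607 ≤ sin (π / 4 - w) := by
    rw [sin_sub, sin_pi_div_four, cos_pi_div_four]
    nlinarith [s2a, s2b]
  have n2 : 0 ≤ sin (π / 6 + w) := sin_nonneg_of_nonneg_of_le_pi (by linarith) (by linarith)
  have n3 : 0.79 ≤ cos (π / 6 + w) := by
    rw [cos_add, sin_pi_div_six, cos_pi_div_six]
    nlinarith [s3a]
  have n4 : 0.707 ≤ cos (π / 4 - w) := by
    have : cos (π / 4) ≤ cos (π / 4 - w) :=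
      cos_le_cos_of_nonneg_of_le_pi (by linarith) (by linarith) (by linarith)
    rw [cos_pi_div_four] at this
    linarith [s2a]
  have L := LB (p := cos y) (q := cos x) (a := cos (π / 6 + w)) (b := cos (π / 4 - w))
    (r := cos (2 * w) * cos x) (t := cos y / 2)
    (u := sin x) (v := sin y) cy cy1 cx n3 (cos_le_one _) n4 (cos_le_one _) hr (by linarith) hu hv
  have m1 : sin (π / 4 - w) * cos x ≤ sin (π / 4 - w) - 0.607 / 2 * sin x ^ 2 := by
    have h := cos_le_sin (w := x)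
    nlinarith [sq_nonneg (sin x)]
  have m2 : sin (π / 6 + w) * cos (x - y) ≤ sin (π / 6 + w) := by
    have h := cos_le_one (x - y)
    nlinarith
  have n5 : cos (2 * w) * sin x ^ 2 ≤ sin x ^ 2 := by nlinarith [sq_nonneg (sin x)]
  have n6 := sq_nonneg (sin x)
  rw [FF_eq, sxy x y]
  linarith

lemma abs_same (r t : ℝ) {u v : ℝ} (h : 0 ≤ u * v) :
    abs (r * |u| + t * |v|) = |r * u + t * v| := by
  rcases mul_nonneg_iff.mp h with ⟨a, b⟩ | ⟨a, b⟩
  · rw [abs_of_nonneg a, abs_of_nonneg b]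
  · rw [abs_of_nonpos a, abs_of_nonpos b, ← abs_neg]; congr 1; ring

lemma abs_opp (r t : ℝ) {u v : ℝ} (h : u * v ≤ 0) :
    abs (r * |u| - t * |v|) = |r * u + t * v| := by
  rcases mul_nonpos_iff.mp h with ⟨a, b⟩ | ⟨a, b⟩
  · rw [abs_of_nonneg a, abs_of_nonpos b]; congr 1; ring
  · rw [abs_of_nonpos a, abs_of_nonneg b, ← abs_neg]; congr 1; ring

lemma opp2 {p q u v : ℝ} (hp : 0 ≤ p) (hq : 0 ≤ q) (h : u * v ≤ 0) :
    p * |u| + q * |v| = |p * u - q * v| := by
  rcases mul_nonpos_iff.mp h with ⟨a, b⟩ | ⟨a, b⟩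
  · rw [abs_of_nonneg a, abs_of_nonpos b, abs_of_nonneg]
    · ring
    · have := mul_nonneg hp a
      have := mul_nonneg hq (by linarith : 0 ≤ -v)
      linarith
  · rw [abs_of_nonpos a, abs_of_nonneg b, abs_of_nonpos]
    · ring
    · have := mul_nonneg hp (by linarith : 0 ≤ -u)
      have := mul_nonneg hq b
      linarith

/-- common preparation for `w ≥ π/24` -/
lemma KC0 {w x y : ℝ} (hw : π / 24 ≤ w) (hwx : w + |x| ≤ π / 12) :
    (√3 + 2 * cos (2 * w) - 4 * sin (π / 4 - w) - 2 * sin (π / 6 + w)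
      - 2.864 * sin x ^ 2 - 2 * sin y ^ 2 + 0.608 * (cos y * sin x - cos x * sin y) ^ 2
      + |cos (2 * w) * cos x * sin x + cos y / 2 * sin y|
      ≤ FF w x y - 4 * sin (π / 4 - w) * cos x - 2 * sin (π / 6 + w) * cos (x - y)) ∧
    (√3 + 2 * cos (2 * w) - 4 * sin (π / 4 - w) - 2 * sin (π / 6 + w)
      - 1.5872 * (w - π / 24)
      - 3.114 * sin x ^ 2 - 2 * sin y ^ 2 + 0.912 * (cos y * sin x - cos x * sin y) ^ 2
      + |cos (2 * w) * cos x * sin x + cos y / 2 * sin y|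
      ≤ FF w x y - 3 * sin (π / 4 - w) * cos x - 3 * sin (π / 6 + w) * cos (x - y)) := by
  have p1 := pi_gt_d4
  have p2 := pi_lt_d4
  have hx0 := abs_nonneg x
  have cw2 : cos (2 * w) ≤ 0.966 := by
    have : cos (2 * w) ≤ cos (π / 12) :=
      cos_le_cos_of_nonneg_of_le_pi (by linarith) (by linarith) (by linarith)
    linarith [C12b]
  have n1 : 1 / 2 ≤ sin (π / 4 - w) := by
    rw [← sin_pi_div_six]
    exact sin_le_sin_of_le_of_le_pi_div_two (by linarith) (by linarith) (by linarith)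
  have n2 : 0.608 ≤ sin (π / 6 + w) := by
    have : sin (5 * π / 24) ≤ sin (π / 6 + w) :=
      sin_le_sin_of_le_of_le_pi_div_two (by linarith) (by linarith) (by linarith)
    linarith [S524a]
  have m1 : sin (π / 4 - w) * cos x ≤ sin (π / 4 - w) - 1 / 4 * sin x ^ 2 := by
    have h := cos_le_sin (w := x)
    nlinarith [sq_nonneg (sin x)]
  have m2 : sin (π / 6 + w) * cos (x - y)
      ≤ sin (π / 6 + w) - 0.608 / 2 * (cos y * sin x - cos x * sin y) ^ 2 := by
    rw [← sxy]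
    have h := cos_le_sin (w := x - y)
    nlinarith [sq_nonneg (sin (x - y))]
  have n5 : cos (2 * w) * sin x ^ 2 ≤ 0.966 * sin x ^ 2 := by nlinarith [sq_nonneg (sin x)]
  have n6 : sin (π / 6 + w) - sin (π / 4 - w) ≤ 1.5872 * (w - π / 24) := by
    have a := ss1 (5 * π / 24) (w - π / 24)
    rw [show 5 * π / 24 + (w - π / 24) = π / 6 + w by ring,
      show 5 * π / 24 - (w - π / 24) = π / 4 - w by ring] at a
    rw [a]
    have b : sin (w - π / 24) ≤ w - π / 24 := sin_le (by linarith)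
    have c := C524b
    have c' := C524a
    have d : 0 ≤ sin (w - π / 24) := sin_nonneg_of_nonneg_of_le_pi (by linarith) (by linarith)
    have e : sin (w - π / 24) * cos (5 * π / 24) ≤ (w - π / 24) * 0.7936 :=
      mul_le_mul b c (by linarith) (by linarith)
    linarith
  rw [FF_eq]
  constructor <;> linarith

lemma KC {w x y : ℝ} (hw : π / 24 ≤ w) (hwx : w + |x| ≤ π / 12) (hy : |y| ≤ π / 12) :
    (0 < FF w x y - 4 * sin (π / 4 - w) * cos x - 2 * sin (π / 6 + w) * cos (x - y)) ∨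
    (0 < FF w x y - 3 * sin (π / 4 - w) * cos x - 3 * sin (π / 6 + w) * cos (x - y)
      + |cos (π / 6 + w) * sin (x - y) + cos (π / 4 - w) * sin x|) := by
  have p1 := pi_gt_d4
  have p2 := pi_lt_d4
  have hx0 := abs_nonneg x
  have hx : |x| ≤ π / 24 := by linarith
  obtain ⟨k1, k2⟩ := KC0 (y := y) hw hwx
  have g := g34lin hw (by linarith)
  have cx : 0.99 ≤ cos x := by
    have a := one_sub_sq_div_two_le_cos (x := x)
    have b : x ^ 2 ≤ 0.1309 ^ 2 := by
      rw [← sq_abs]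
      exact pow_le_pow_left₀ (abs_nonneg x) (by linarith) 2
    norm_num at b
    linarith
  have cy : 0.965 ≤ cos y := cos_lo12 hy
  have cx1 := cos_le_one x
  have cy1 := cos_le_one y
  have cw : √3 / 2 ≤ cos (2 * w) := cos_lo (by rw [abs_of_nonneg (by linarith)]; linarith)
  have cw2 : cos (2 * w) ≤ 0.966 := by
    have : cos (2 * w) ≤ cos (π / 12) :=
      cos_le_cos_of_nonneg_of_le_pi (by linarith) (by linarith) (by linarith)
    linarith [C12b]
  have hr : 0.85 ≤ cos (2 * w) * cos x := by nlinarith [s3a]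
  have hr1 : cos (2 * w) * cos x ≤ 0.966 := by nlinarith [s3a]
  have hv : |sin y| ≤ 0.2618 := abs_sin_le (by linarith)
  have hu' : |sin x| + (w - π / 24) ≤ 0.1309 := by
    have : |sin x| ≤ |x| := abs_sin_le_abs
    linarith
  have hu : |sin x| ≤ 0.1309 := by linarith
  have n3 : 0.707 ≤ cos (π / 6 + w) := by
    have : cos (π / 4) ≤ cos (π / 6 + w) :=
      cos_le_cos_of_nonneg_of_le_pi (by linarith) (by linarith) (by linarith)
    rw [cos_pi_div_four] at this
    linarith [s2a]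
  have n4 : 0.793 ≤ cos (π / 4 - w) := by
    have : cos (5 * π / 24) ≤ cos (π / 4 - w) :=
      cos_le_cos_of_nonneg_of_le_pi (by linarith) (by linarith) (by linarith)
    linarith [C524a]
  rcases le_total 0 (sin x * sin y) with hs | hs
  · -- same signs
    left
    have L := LC1 (p := cos y) (q := cos x) (r := cos (2 * w) * cos x) (t := cos y / 2)
      (u := |sin x|) (v := |sin y|) (by linarith) cy1 (by linarith) cx1 hr (by linarith)
      (abs_nonneg _) (abs_nonneg _) hu hv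
    have e1 : (cos y * |sin x| - cos x * |sin y|) ^ 2
        = (cos y * sin x - cos x * sin y) ^ 2 := by
      have a : |sin x| * |sin y| = sin x * sin y := by rw [← abs_mul, abs_of_nonneg hs]
      have b : |sin x| ^ 2 = sin x ^ 2 := sq_abs _
      have c : |sin y| ^ 2 = sin y ^ 2 := sq_abs _
      linear_combination cos y ^ 2 * b + cos x ^ 2 * c - 2 * cos x * cos y * a
    rw [e1, abs_same _ _ hs, sq_abs, sq_abs] at L
    have := sq_nonneg (cos y * sin x - cos x * sin y)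
    have := sq_nonneg (sin x)
    linarith
  · -- opposite signs
    have L := LC2 (p := cos y) (q := cos x) (a := cos (π / 6 + w)) (b := cos (π / 4 - w))
      (r := cos (2 * w) * cos x) (t := cos y / 2) (u := |sin x|) (v := |sin y|)
      (e := w - π / 24) cy cx n3 n4 hr hr1 (by linarith) (by linarith)
      (abs_nonneg _) (abs_nonneg _) (by linarith) hu' hv g
    have e3 : (cos y * |sin x| + cos x * |sin y|) ^ 2
        = (cos y * sin x - cos x * sin y) ^ 2 := by
      rw [opp2 (by linarith) (by linarith) hs, sq_abs]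
    have e4 : cos (π / 6 + w) * (cos y * |sin x| + cos x * |sin y|) + cos (π / 4 - w) * |sin x|
        = |cos (π / 6 + w) * sin (x - y) + cos (π / 4 - w) * sin x| := by
      have n5 : 0 ≤ cos (π / 6 + w) := by linarith
      have n6 : 0 ≤ cos (π / 4 - w) := by linarith
      have a := opp2 (p := cos (π / 6 + w) * cos y + cos (π / 4 - w))
        (q := cos (π / 6 + w) * cos x) (by have := mul_nonneg n5 (by linarith : 0 ≤ cos y); linarith)
        (mul_nonneg n5 (by linarith)) hs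
      have b : cos (π / 6 + w) * sin (x - y) + cos (π / 4 - w) * sin x
          = (cos (π / 6 + w) * cos y + cos (π / 4 - w)) * sin x
            - cos (π / 6 + w) * cos x * sin y := by rw [sxy x y]; ring
      rw [b, ← a]; ring
    rw [e4, e3, abs_opp _ _ hs, sq_abs, sq_abs] at L
    rcases L with L | L
    · left; linarith
    · right; linarith

lemma KH {w x y : ℝ} (hw : 11 * π / 180 ≤ w) (hwx : w + |x| ≤ π / 12) (hy : |y| ≤ π / 12)
    (hxy : |2 * x - y| ≤ 2 * (w - π / 24)) :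
    0.024 < FF w x y - 4 * sin (π / 4 - w) * cos x - 2 * sin (π / 6 + w) * cos (x - y) := by
  have p1 := pi_gt_d4
  have p2 := pi_lt_d4
  have hx0 := abs_nonneg x
  have hx : |x| ≤ π / 24 := by linarith
  obtain ⟨k1, _⟩ := KC0 (y := y) (by linarith : π / 24 ≤ w) hwx
  have g := g34H hw (by linarith)
  have cx : 0.99 ≤ cos x := by
    have a := one_sub_sq_div_two_le_cos (x := x)
    have b : x ^ 2 ≤ 0.1309 ^ 2 := by
      rw [← sq_abs]
      exact pow_le_pow_left₀ (abs_nonneg x) (by linarith) 2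
    norm_num at b
    linarith
  have cy : 0.965 ≤ cos y := cos_lo12 hy
  have cx1 := cos_le_one x
  have cy1 := cos_le_one y
  have cw : √3 / 2 ≤ cos (2 * w) := cos_lo (by rw [abs_of_nonneg (by linarith)]; linarith)
  have cw2 : cos (2 * w) ≤ 0.966 := by
    have : cos (2 * w) ≤ cos (π / 12) :=
      cos_le_cos_of_nonneg_of_le_pi (by linarith) (by linarith) (by linarith)
    linarith [C12b]
  have hr : 0.85 ≤ cos (2 * w) * cos x := by nlinarith [s3a]
  have hr1 : cos (2 * w) * cos x ≤ 0.966 := by nlinarith [s3a]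
  have hv : |sin y| ≤ 0.2618 := abs_sin_le (by linarith)
  have hux : |sin x| ≤ |x| := abs_sin_le_abs
  have hvy : |sin y| ≤ |y| := abs_sin_le_abs
  have hu : |sin x| ≤ 0.1309 := by linarith
  rcases le_total 0 (sin x * sin y) with hs | hs
  · -- same signs
    have L := LC1 (p := cos y) (q := cos x) (r := cos (2 * w) * cos x) (t := cos y / 2)
      (u := |sin x|) (v := |sin y|) (by linarith) cy1 (by linarith) cx1 hr (by linarith)
      (abs_nonneg _) (abs_nonneg _) hu hv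
    have e1 : (cos y * |sin x| - cos x * |sin y|) ^ 2
        = (cos y * sin x - cos x * sin y) ^ 2 := by
      have a : |sin x| * |sin y| = sin x * sin y := by rw [← abs_mul, abs_of_nonneg hs]
      have b : |sin x| ^ 2 = sin x ^ 2 := sq_abs _
      have c : |sin y| ^ 2 = sin y ^ 2 := sq_abs _
      linear_combination cos y ^ 2 * b + cos x ^ 2 * c - 2 * cos x * cos y * a
    rw [e1, abs_same _ _ hs, sq_abs, sq_abs] at L
    have := sq_nonneg (cos y * sin x - cos x * sin y)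
    have := sq_nonneg (sin x)
    linarith
  · -- opposite signs
    have e5 : 2 * |x| + |y| = |2 * x - y| := by
      have hs' : (2 * x) * y ≤ 0 := by
        by_contra hc
        rw [not_le] at hc
        have q1 : |x| < π := by linarith
        have q2 : |y| < π := by linarith
        obtain ⟨x1, x2⟩ := abs_lt.mp q1
        obtain ⟨y1, y2⟩ := abs_lt.mp q2
        rcases pos_and_pos_or_neg_and_neg_of_mul_pos hc with ⟨a, b⟩ | ⟨a, b⟩
        · have := mul_pos (sin_pos_of_pos_of_lt_pi (by linarith : 0 < x) x2)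
            (sin_pos_of_pos_of_lt_pi b y2)
          linarith
        · have := mul_pos_of_neg_of_neg
            (sin_neg_of_neg_of_neg_pi_lt (by linarith : x < 0) x1)
            (sin_neg_of_neg_of_neg_pi_lt b y1)
          linarith
      have a := opp2 (p := 1) (q := 1) (u := 2 * x) (v := y) zero_le_one zero_le_one hs'
      rw [one_mul, one_mul, one_mul, one_mul, abs_mul, abs_two] at a
      exact a
    have L := LH2 (p := cos y) (q := cos x)
      (r := cos (2 * w) * cos x) (t := cos y / 2) (u := |sin x|) (v := |sin y|)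
      (e := w - π / 24) (G := √3 + 2 * cos (2 * w) - 4 * sin (π / 4 - w) - 2 * sin (π / 6 + w))
      cy cx hr1 (by linarith) (abs_nonneg _) (abs_nonneg _) (by linarith) (by linarith) g
    have e3 : (cos y * |sin x| + cos x * |sin y|) ^ 2
        = (cos y * sin x - cos x * sin y) ^ 2 := by
      rw [opp2 (by linarith) (by linarith) hs, sq_abs]
    rw [e3, abs_opp _ _ hs, sq_abs, sq_abs] at L
    linarith

/-! ## The two rows -/

/-- the four exchanges -/
lemma four {C D O : ℝ} (hC : |C| ≤ π / 6) (hD : |D| ≤ π / 6) (hO : |O| ≤ π / 6) :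
    (0 < |sin C - sin D + sin O| / 4 + √3 - 1 + cos C + cos D + cos O
      - 2 * sin (π / 4 - C / 2) - 2 * sin (π / 4 - D / 2) - sin (π / 6 + (C - O) / 2)
      - sin (π / 6 + (D + O) / 2)) ∨
    (0 < |sin C - sin D + sin O| / 4 + √3 - 1 + cos C + cos D + cos O
      - sin (π / 4 - C / 2) - sin (π / 4 - D / 2) - 2 * sin (π / 6 + (C - O) / 2)
      - 2 * sin (π / 6 + (D + O) / 2)) ∨
    (0 < |sin C - sin D + sin O| / 4 + √3 - 1 + cos C + cos D + cos O
      - 2 * sin (π / 4 - C / 2) - sin (π / 4 - D / 2) - sin (π / 6 + (C - O) / 2)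
      - 2 * sin (π / 6 + (D + O) / 2)) ∨
    (0 < |sin C - sin D + sin O| / 4 + √3 - 1 + cos C + cos D + cos O
      - sin (π / 4 - C / 2) - 2 * sin (π / 4 - D / 2) - 2 * sin (π / 6 + (C - O) / 2)
      - sin (π / 6 + (D + O) / 2)) := by
  have hpi := pi_pos
  obtain ⟨w, hw⟩ : ∃ w, w = (C + D) / 4 := ⟨_, rfl⟩
  obtain ⟨x, hx⟩ : ∃ x, x = (C - D) / 4 := ⟨_, rfl⟩
  obtain ⟨y, hy⟩ : ∃ y, y = O / 2 := ⟨_, rfl⟩
  have eC : C = 2 * w + 2 * x := by rw [hw, hx]; ring
  have eD : D = 2 * w - 2 * x := by rw [hw, hx]; ring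
  have eO : O = 2 * y := by rw [hy]; ring
  obtain ⟨c1, c2⟩ := abs_le.mp hC
  obtain ⟨d1, d2⟩ := abs_le.mp hD
  have hy' : |y| ≤ π / 12 := by rw [hy, abs_div, abs_two]; linarith
  have wx : w + |x| ≤ π / 12 := by
    rcases abs_cases x with ⟨e, _⟩ | ⟨e, _⟩ <;> rw [e] <;> linarith
  have wx' : -w + |x| ≤ π / 12 := by
    rcases abs_cases x with ⟨e, _⟩ | ⟨e, _⟩ <;> rw [e] <;> linarith
  have hF : |sin C - sin D + sin O| / 4 + √3 - 1 + cos C + cos D + cos O = FF w x y := by
    have t1 : sin C - sin D + sin O = 2 * cos (2 * w) * sin (2 * x) + sin (2 * y) := by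
      rw [eC, eD, eO, sin_add, sin_sub]; ring
    have t2 : cos C + cos D = 2 * cos (2 * w) * cos (2 * x) := by
      rw [eC, eD, cos_add, cos_sub]; ring
    have t3 : cos O = cos (2 * y) := by rw [eO]
    unfold FF
    rw [← t1, ← t2, ← t3]; ring
  rw [hF]
  have q1 : sin (π / 4 - C / 2) = sin (π / 4 - w - x) := by congr 1; rw [eC]; ring
  have q2 : sin (π / 4 - D / 2) = sin (π / 4 - w + x) := by congr 1; rw [eD]; ring
  have q3 : sin (π / 6 + (C - O) / 2) = sin (π / 6 + w + (x - y)) := by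
    congr 1; rw [eC, eO]; ring
  have q4 : sin (π / 6 + (D + O) / 2) = sin (π / 6 + w - (x - y)) := by
    congr 1; rw [eD, eO]; ring
  rw [q1, q2, q3, q4, sin_sub (π / 4 - w) x, sin_add (π / 4 - w) x, sin_add (π / 6 + w) (x - y),
    sin_sub (π / 6 + w) (x - y)]
  have mixcase : 0 < FF w x y - 3 * sin (π / 4 - w) * cos x - 3 * sin (π / 6 + w) * cos (x - y)
      + |cos (π / 6 + w) * sin (x - y) + cos (π / 4 - w) * sin x| →
    (0 < FF w x y - 2 * (sin (π / 4 - w) * cos x - cos (π / 4 - w) * sin x)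
        - (sin (π / 4 - w) * cos x + cos (π / 4 - w) * sin x)
        - (sin (π / 6 + w) * cos (x - y) + cos (π / 6 + w) * sin (x - y))
        - 2 * (sin (π / 6 + w) * cos (x - y) - cos (π / 6 + w) * sin (x - y))) ∨
    (0 < FF w x y - (sin (π / 4 - w) * cos x - cos (π / 4 - w) * sin x)
        - 2 * (sin (π / 4 - w) * cos x + cos (π / 4 - w) * sin x)
        - 2 * (sin (π / 6 + w) * cos (x - y) + cos (π / 6 + w) * sin (x - y))
        - (sin (π / 6 + w) * cos (x - y) - cos (π / 6 + w) * sin (x - y))) := by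
    intro K
    rcases abs_cases (cos (π / 6 + w) * sin (x - y) + cos (π / 4 - w) * sin x) with
      ⟨e, _⟩ | ⟨e, _⟩
    · left; rw [e] at K; linarith
    · right; rw [e] at K; linarith
  rcases le_total (π / 24) w with hc | hc
  · rcases KC hc wx hy' with K | K
    · left; linarith
    · right; right; exact mixcase K
  · rcases le_total 0 w with h | h
    · right; right; exact mixcase (KB h hc wx hy')
    · right; left
      have K := KA h wx' hy'
      linarith

/-- the near side: two exchanges with weights `1 - a`, `1 - b` in the outer gaps -/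
lemma near {A B C D : ℝ} (hA : |A| ≤ π / 6) (hB : |B| ≤ π / 6) (hC : |C| ≤ π / 6)
    (hD : |D| ≤ π / 6) {a b : ℝ} (ha0 : 0 ≤ a) (ha1 : a ≤ 1) (hb0 : 0 ≤ b) (hb1 : b ≤ 1) :
    |sin A - sin B| / 4 + √3 - 1 - a * (2 * sin (π / 4 - C / 2)) - b * (2 * sin (π / 4 - D / 2)) ≤
    cos A + cos B - 2 * sin ((A + B) / 2) - a * (2 * sin (π / 3 - (A + C) / 2))
      - b * (2 * sin (π / 3 - (B + D) / 2)) := by
  have hpi := pi_pos
  have s1 := step1' hA hB
  have b1 := brk hA hC
  have b2 := brk hB hD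
  have hh : ∀ {X : ℝ}, |X| ≤ π / 6 → 1 ≤ 2 * sin (π / 4 - X / 2) := by
    intro X hX
    obtain ⟨x1, x2⟩ := abs_le.mp hX
    have : sin (π / 6) ≤ sin (π / 4 - X / 2) :=
      sin_le_sin_of_le_of_le_pi_div_two (by linarith) (by linarith) (by linarith)
    rw [sin_pi_div_six] at this
    linarith
  have hA1 := hh hA
  have hB1 := hh hB
  have m1 := mul_le_mul_of_nonneg_left b1 ha0
  have m2 := mul_le_mul_of_nonneg_left b2 hb0
  have m3 : 0 ≤ (1 - a) * (2 * sin (π / 4 - A / 2) - 1) := mul_nonneg (by linarith) (by linarith)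
  have m4 : 0 ≤ (1 - b) * (2 * sin (π / 4 - B / 2) - 1) := mul_nonneg (by linarith) (by linarith)
  nlinarith

open H11ST.NH in
theorem st_BASE : ST_BASE := by
  intro A B C D O hb
  have hpi := pi_pos
  obtain ⟨hA, hB, hC, hD, hO, hbal⟩ := hb
  have e : sin A - sin B = sin C - sin D + sin O := by linarith
  have g0 : ch (A + B) = 2 * sin ((A + B) / 2) := rfl
  have g1 : ch (2 * π / 3 - A - C) = 2 * sin (π / 3 - (A + C) / 2) := by
    unfold ch; congr 2; ring
  have g2 : ch (π / 3 + C - O) = 2 * sin (π / 6 + (C - O) / 2) := by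
    unfold ch; congr 2; ring
  have g3 : ch (π / 3 + D + O) = 2 * sin (π / 6 + (D + O) / 2) := by
    unfold ch; congr 2; ring
  have g4 : ch (2 * π / 3 - B - D) = 2 * sin (π / 3 - (B + D) / 2) := by
    unfold ch; congr 2; ring
  rw [g0, g1, g2, g3, g4]
  have M1 := le_max_left (2 * sin (π / 3 - (A + C) / 2)) (2 * sin (π / 6 + (C - O) / 2))
  have M2 := le_max_right (2 * sin (π / 3 - (A + C) / 2)) (2 * sin (π / 6 + (C - O) / 2))
  have M3 := le_max_left (2 * sin (π / 6 + (D + O) / 2)) (2 * sin (π / 3 - (B + D) / 2))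
  have M4 := le_max_right (2 * sin (π / 6 + (D + O) / 2)) (2 * sin (π / 3 - (B + D) / 2))
  rcases four hC hD hO with h | h | h | h
  · have N := near hA hB hC hD (a := 1) (b := 1) (by norm_num) le_rfl (by norm_num) le_rfl
    rw [e] at N
    linarith
  · have N := near hA hB hC hD (a := 1 / 2) (b := 1 / 2) (by norm_num) (by norm_num) (by norm_num)
      (by norm_num)
    rw [e] at N
    linarith
  · have N := near hA hB hC hD (a := 1) (b := 1 / 2) (by norm_num) le_rfl (by norm_num)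
      (by norm_num)
    rw [e] at N
    linarith
  · have N := near hA hB hC hD (a := 1 / 2) (b := 1) (by norm_num) (by norm_num) (by norm_num)
      le_rfl
    rw [e] at N
    linarith

open H11ST.NH in
theorem st_BASEH : ST_BASEH := by
  intro A B C D O hb h12 h43 hsum
  have hpi := pi_pos
  obtain ⟨hA, hB, hC, hD, hO, hbal⟩ := hb
  have e : sin A - sin B = sin C - sin D + sin O := by linarith
  have g0 : ch (A + B) = 2 * sin ((A + B) / 2) := rfl
  have g1 : ch (2 * π / 3 - A - C) = 2 * sin (π / 3 - (A + C) / 2) := by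
    unfold ch; congr 2; ring
  have g2 : ch (π / 3 + C - O) = 2 * sin (π / 6 + (C - O) / 2) := by
    unfold ch; congr 2; ring
  have g3 : ch (π / 3 + D + O) = 2 * sin (π / 6 + (D + O) / 2) := by
    unfold ch; congr 2; ring
  have g4 : ch (2 * π / 3 - B - D) = 2 * sin (π / 3 - (B + D) / 2) := by
    unfold ch; congr 2; ring
  rw [g0, g1, g2, g3, g4]
  have N := near hA hB hC hD (a := 1) (b := 1) (by norm_num) le_rfl (by norm_num) le_rfl
  rw [e] at N
  obtain ⟨w, hw⟩ : ∃ w, w = (C + D) / 4 := ⟨_, rfl⟩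
  obtain ⟨x, hx⟩ : ∃ x, x = (C - D) / 4 := ⟨_, rfl⟩
  obtain ⟨y, hy⟩ : ∃ y, y = O / 2 := ⟨_, rfl⟩
  have eC : C = 2 * w + 2 * x := by rw [hw, hx]; ring
  have eD : D = 2 * w - 2 * x := by rw [hw, hx]; ring
  have eO : O = 2 * y := by rw [hy]; ring
  obtain ⟨a1, a2⟩ := abs_le.mp hA
  obtain ⟨b1, b2⟩ := abs_le.mp hB
  obtain ⟨c1, c2⟩ := abs_le.mp hC
  obtain ⟨d1, d2⟩ := abs_le.mp hD
  have hy' : |y| ≤ π / 12 := by rw [hy, abs_div, abs_two]; linarith
  have wx : w + |x| ≤ π / 12 := by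
    rcases abs_cases x with ⟨e, _⟩ | ⟨e, _⟩ <;> rw [e] <;> linarith
  have hw' : 11 * π / 180 ≤ w := by linarith
  have hxy : |2 * x - y| ≤ 2 * (w - π / 24) := by
    rw [abs_le]; constructor <;> linarith
  have K := KH hw' wx hy' hxy
  have hF : |sin C - sin D + sin O| / 4 + √3 - 1 + cos C + cos D + cos O = FF w x y := by
    have t1 : sin C - sin D + sin O = 2 * cos (2 * w) * sin (2 * x) + sin (2 * y) := by
      rw [eC, eD, eO, sin_add, sin_sub]; ring
    have t2 : cos C + cos D = 2 * cos (2 * w) * cos (2 * x) := by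
      rw [eC, eD, cos_add, cos_sub]; ring
    have t3 : cos O = cos (2 * y) := by rw [eO]
    unfold FF
    rw [← t1, ← t2, ← t3]; ring
  have q1 : sin (π / 4 - C / 2) = sin (π / 4 - w - x) := by congr 1; rw [eC]; ring
  have q2 : sin (π / 4 - D / 2) = sin (π / 4 - w + x) := by congr 1; rw [eD]; ring
  have q3 : sin (π / 6 + (C - O) / 2) = sin (π / 6 + w + (x - y)) := by
    congr 1; rw [eC, eO]; ring
  have q4 : sin (π / 6 + (D + O) / 2) = sin (π / 6 + w - (x - y)) := by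
    congr 1; rw [eD, eO]; ring
  have r1 := ss2 (π / 4 - w) x
  have r2 := ss2 (π / 6 + w) (x - y)
  rw [q1, q2] at N
  rw [q3, q4]
  linarith

end Pool.Agent.Helper33.N2
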