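import Pool.Agent.Helper80.NH.Stm2
import Pool.Agent.Helper33.N2.Half

/-!
# Row ARMHa: the loss of the arm `T` with weights `1/2, 1/2` is at most `24/1000`
-/

set_option autoImplicit false

open Real

namespace Pool.Agent.Helper33.N2

lemma s12hi : sin (π / 12) ≤ 0.25882 := by
  have h : sin (π / 12) ^ 2 = 1 / 2 - √3 / 4 := by
    rw [sin_sq, cos_sq, show 2 * (π / 12) = π / 6 by ring, cos_pi_div_six]; ring
  have := s3a
  by_contra hc
  rw [not_le] at hc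
  nlinarith

lemma c12hi : cos (π / 12) ≤ 0.96593 := by
  have h : cos (π / 12) ^ 2 = 1 / 2 + √3 / 4 := by
    rw [cos_sq, show 2 * (π / 12) = π / 6 by ring, cos_pi_div_six]; ring
  have b := s3b
  by_contra hc
  rw [not_le] at hc
  nlinarith

lemma c12lo : 0.9659 ≤ cos (π / 12) := by
  have hpi := pi_pos
  have h : cos (π / 12) ^ 2 = 1 / 2 + √3 / 4 := by
    rw [cos_sq, show 2 * (π / 12) = π / 6 by ring, cos_pi_div_six]; ring
  have h0 : 0 ≤ cos (π / 12) := cos_nonneg_of_neg_pi_div_two_le_of_le (by linarith) (by linarith)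
  have b := s3a
  by_contra hc
  rw [not_le] at hc
  nlinarith

/-- the line -/
lemma line {w : ℝ} (h0 : -(π / 2) ≤ w) (h1 : w ≤ π / 6) :
    sin (π / 12 + w / 2) ≤ 0.2589 + 0.483 * sin w := by
  have hpi := pi_pos
  obtain ⟨k, hk⟩ : ∃ k, k = sin (w / 2) := ⟨_, rfl⟩
  obtain ⟨m, hm⟩ : ∃ m, m = cos (w / 2) := ⟨_, rfl⟩
  have e1 : sin w = 2 * k * m := by
    rw [hk, hm, ← sin_two_mul]; congr 1; ring
  have e2 : sin (π / 12 + w / 2) = sin (π / 12) * m + cos (π / 12) * k := by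
    rw [sin_add, hk, hm]
  have hm0 : 0 ≤ m := by
    rw [hm]; exact cos_nonneg_of_neg_pi_div_two_le_of_le (by linarith) (by linarith)
  have hkm : k ^ 2 + m ^ 2 = 1 := by rw [hk, hm]; exact sin_sq_add_cos_sq _
  have hm1 : m ≤ 1 - k ^ 2 / 2 := by rw [hk, hm]; exact cos_le_sin
  have hk1 : k ≤ 0.2589 := by
    have : k ≤ sin (π / 12) := by
      rw [hk]
      exact sin_le_sin_of_le_of_le_pi_div_two (by linarith) (by linarith) (by linarith)
    linarith [s12hi]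
  have a1 := s12hi
  have a2 := c12hi
  have a3 := c12lo
  have b1 : sin (π / 12) * m ≤ 0.25882 * (1 - k ^ 2 / 2) := by
    calc sin (π / 12) * m ≤ 0.25882 * m := mul_le_mul_of_nonneg_right a1 hm0
      _ ≤ 0.25882 * (1 - k ^ 2 / 2) := mul_le_mul_of_nonneg_left hm1 (by norm_num)
  rw [e1, e2]
  rcases le_total 0 k with hc | hc
  · have b2 : cos (π / 12) * k ≤ 0.96593 * k := mul_le_mul_of_nonneg_right a2 hc
    have b3 : 1 - 0.51 * k ^ 2 ≤ m := by
      by_contra hcon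
      rw [not_le] at hcon
      have x1 : k ^ 2 ≤ 0.2589 ^ 2 := pow_le_pow_left₀ hc hk1 2
      nlinarith [sq_nonneg k]
    have b4 : (1 - 0.51 * k ^ 2) * k ≤ m * k := mul_le_mul_of_nonneg_right b3 hc
    have b5 : 0 ≤ k ^ 2 * (0.2589 - k) := mul_nonneg (sq_nonneg _) (by linarith)
    nlinarith [sq_nonneg k]
  · have b2 : 0.9659 * (-k) ≤ cos (π / 12) * (-k) :=
      mul_le_mul_of_nonneg_right a3 (by linarith)
    have b3 : m * (-k) ≤ 1 * (-k) := mul_le_mul_of_nonneg_right (by nlinarith [sq_nonneg k])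
      (by linarith)
    nlinarith [sq_nonneg (k + 0.0004)]

/-- gain of one side whose child stays above thirty degrees -/
lemma gain {b w r : ℝ} (hb : b ≤ π / 2) (hw : π / 6 ≤ w) (hwb : w ≤ b)
    (hs : sin w = sin b - √3 / 2 * r) :
    r * (3 / 16 * (1 / sin (π / 4 + b / 2)) + √3 / 8 * (1 / (cos (π / 4 + b / 2) + 1 / 2))) ≤
      sin (π / 12 + b / 2) - sin (π / 12 + w / 2) := by
  have hpi := pi_pos
  have hr : 0 ≤ r := by
    have : sin w ≤ sin b := sin_le_sin_of_le_of_le_pi_div_two (by linarith) hb hwb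
    have h3 : 0 < √3 := by positivity
    by_contra hc
    rw [not_le] at hc
    nlinarith
  obtain ⟨Pb, ePb⟩ : ∃ x, x = sin (π / 4 + b / 2) := ⟨_, rfl⟩
  obtain ⟨Pw, ePw⟩ : ∃ x, x = sin (π / 4 + w / 2) := ⟨_, rfl⟩
  obtain ⟨Qb, eQb⟩ : ∃ x, x = cos (π / 4 + b / 2) := ⟨_, rfl⟩
  obtain ⟨Qw, eQw⟩ : ∃ x, x = cos (π / 4 + w / 2) := ⟨_, rfl⟩
  rw [← ePb, ← eQb]
  have h1 : ∀ t : ℝ, 2 * sin (π / 4 + t / 2) ^ 2 = 1 + sin t := by
    intro t
    have x1 : cos (2 * (π / 4 + t / 2)) = - sin t := by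
      rw [show 2 * (π / 4 + t / 2) = t + π / 2 by ring, cos_add_pi_div_two]
    have x2 := cos_two_mul (π / 4 + t / 2)
    have x3 := sin_sq_add_cos_sq (π / 4 + t / 2)
    linarith
  have h2 : ∀ t : ℝ, 2 * cos (π / 4 + t / 2) ^ 2 = 1 - sin t := by
    intro t
    have x1 : cos (2 * (π / 4 + t / 2)) = - sin t := by
      rw [show 2 * (π / 4 + t / 2) = t + π / 2 by ring, cos_add_pi_div_two]
    have x2 := cos_two_mul (π / 4 + t / 2)
    linarith
  have i1 := h1 b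
  have i2 := h1 w
  have i3 := h2 b
  have i4 := h2 w
  rw [← ePb] at i1
  rw [← ePw] at i2
  rw [← eQb] at i3
  rw [← eQw] at i4
  have hh : ∀ t : ℝ, sin (π / 12 + t / 2)
      = √3 / 2 * sin (π / 4 + t / 2) - 1 / 2 * cos (π / 4 + t / 2) := by
    intro t
    rw [show π / 12 + t / 2 = (π / 4 + t / 2) - π / 6 by ring, sin_sub, cos_pi_div_six,
      sin_pi_div_six]
    ring
  rw [hh b, hh w, ← ePb, ← ePw, ← eQb, ← eQw]
  have PP : Pw ≤ Pb := by
    rw [ePw, ePb]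
    exact sin_le_sin_of_le_of_le_pi_div_two (by linarith) (by linarith) (by linarith)
  have Pw0 : 0 < Pw := by rw [ePw]; exact sin_pos_of_pos_of_lt_pi (by linarith) (by linarith)
  have Qb0 : 0 ≤ Qb := by
    rw [eQb]; exact cos_nonneg_of_neg_pi_div_two_le_of_le (by linarith) (by linarith)
  have QQ : Qb ≤ Qw := by
    rw [eQw, eQb]
    exact cos_le_cos_of_nonneg_of_le_pi (by linarith) (by linarith) (by linarith)
  have Qw1 : Qw ≤ 1 / 2 := by
    rw [eQw, ← cos_pi_div_three]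
    exact cos_le_cos_of_nonneg_of_le_pi (by linarith) (by linarith) (by linarith)
  have Pb0 : 0 < Pb := by linarith
  have k1 : √3 / 8 * r * (1 / Pb) ≤ Pb - Pw := by
    rw [mul_one_div, div_le_iff₀ Pb0]
    nlinarith
  have k2 : √3 / 4 * r * (1 / (Qb + 1 / 2)) ≤ Qw - Qb := by
    rw [mul_one_div, div_le_iff₀ (by linarith)]
    nlinarith
  have h33 : √3 * √3 = 3 := by norm_num
  have k3 : √3 / 2 * (√3 / 8 * r * (1 / Pb)) ≤ √3 / 2 * (Pb - Pw) :=
    mul_le_mul_of_nonneg_left k1 (by positivity)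
  have k4 : √3 / 2 * (√3 / 8 * r * (1 / Pb)) = 3 / 16 * r * (1 / Pb) := by
    linear_combination r * (1 / Pb) / 16 * h33
  rw [k4] at k3
  linarith

lemma inv_tan {A k : ℝ} (hA : 0 < A) (hk : 0 < k) : (2 * k - A) / k ^ 2 ≤ 1 / A := by
  rw [div_le_div_iff₀ (by positivity) hA]
  nlinarith [sq_nonneg (A - k)]

/-- algebra of case 1 -/
lemma case1_real {c g Y y s : ℝ} (hs1 : 1.73205 < s) (hs2 : s < 1.73206) (hc0 : s / 2 ≤ c)
    (hc1 : c ≤ 1) (g0 : 0 ≤ g) (g2 : g ^ 2 = 1 + c) (Y0 : 0 ≤ Y) (Y2 : Y ^ 2 = c ^ 2 - 3 / 4)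
    (hy : Y ≤ y) : c - y - g + 0.5178 + 0.483 * (s * y) ≤ 0.024 := by
  have gl : 1.366 + 0.3596 * (c - 0.866) ≤ g := by
    by_contra hcon
    rw [not_le] at hcon
    have : g ^ 2 < (1.366 + 0.3596 * (c - 0.866)) ^ 2 :=
      pow_lt_pow_left₀ hcon g0 (by norm_num)
    nlinarith
  have hYk : 3.9187 * c - 3.4315 ≤ Y := by
    by_contra hcon
    rw [not_le] at hcon
    have : Y ^ 2 < (3.9187 * c - 3.4315) ^ 2 := pow_lt_pow_left₀ hcon Y0 (by norm_num)
    nlinarith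
  have q : s * y ≤ 1.73206 * y := mul_le_mul_of_nonneg_right hs2.le (by linarith)
  linarith

/-- algebra of case 2: the part without `r` -/
lemma D1_real {u v s : ℝ} (hs1 : 1.73205 < s) (hs2 : s < 1.73206) (u0 : 0 ≤ u)
    (_u1 : u ≤ 0.25882) (v0 : 0 ≤ v) (v1 : v ≤ 1 - u ^ 2 / 2) (v2 : 1 - 0.509 * u ^ 2 ≤ v) :
    0.2589 + 0.483 * (1 / 2 * (1 - 2 * u ^ 2) + s * u * v) - (1 / 2 * v + s / 2 * u) ≤ 0.001 := by
  have y1 : s * u * v ≤ 1.73206 * u := by
    have : u * v ≤ u * 1 := mul_le_mul_of_nonneg_left (by linarith [sq_nonneg u]) u0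
    have h' : s * (u * v) ≤ 1.73206 * (u * 1) :=
      mul_le_mul hs2.le this (mul_nonneg u0 v0) (by norm_num)
    linarith
  have y2 : 1.73205 * u ≤ s * u := mul_le_mul_of_nonneg_right hs1.le u0
  linarith [sq_nonneg u]

/-- algebra of case 2: the part with `r` -/
lemma X_real {u v s r X D : ℝ} (hs1 : 1.73205 < s) (hs2 : s < 1.73206) (h33 : s * s = 3)
    (u0 : 0 ≤ u) (u1 : u ≤ 0.25882) (v0 : 0 < v) (v1 : v ≤ 1 - u ^ 2 / 2)
    (v2 : 1 - 0.509 * u ^ 2 ≤ v) (hX0 : 0 ≤ X) (r2 : s * r ≤ 1 - 4 * u ^ 2)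
    (hX : X = 1 - 0.483 * (s / 2) - 3 / 16 * (1 / v) - s / 8 * (1 / (u + 1 / 2)))
    (hD : D = 0.2589 + 0.483 * (1 / 2 * (1 - 2 * u ^ 2) + s * u * v) - (1 / 2 * v + s / 2 * u)) :
    D + r * X ≤ 0.024 := by
  have r3 : s * r * X ≤ (1 - 4 * u ^ 2) * X := mul_le_mul_of_nonneg_right r2 hX0
  have usq : u ^ 2 ≤ 0.25882 ^ 2 := pow_le_pow_left₀ u0 u1 2
  have i1 : 1 + u ^ 2 / 2 ≤ 1 / v := by
    rw [le_div_iff₀ v0]
    have : (1 + u ^ 2 / 2) * v ≤ (1 + u ^ 2 / 2) * (1 - u ^ 2 / 2) :=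
      mul_le_mul_of_nonneg_left v1 (by linarith [sq_nonneg u])
    have h4 : 0 ≤ u ^ 2 * u ^ 2 := by positivity
    linarith
  have i2 : (1 - 4 * u ^ 2) * (1 / (u + 1 / 2)) = 2 - 4 * u := by
    rw [mul_one_div, div_eq_iff (by linarith)]; ring
  have i3 : 0 ≤ 1 - 4 * u ^ 2 := by
    norm_num at usq
    linarith
  have i4 : (1 - 4 * u ^ 2) * X ≤
      (1 - 4 * u ^ 2) * (1 - 0.483 * (s / 2) - 3 / 16 * (1 + u ^ 2 / 2))
        - s / 8 * (2 - 4 * u) := by
    rw [hX]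
    have j1 : (1 - 4 * u ^ 2) * (3 / 16 * (1 + u ^ 2 / 2)) ≤
        (1 - 4 * u ^ 2) * (3 / 16 * (1 / v)) :=
      mul_le_mul_of_nonneg_left (by linarith) i3
    have j2 : (1 - 4 * u ^ 2) * (s / 8 * (1 / (u + 1 / 2))) = s / 8 * (2 - 4 * u) := by
      rw [← i2]; ring
    linarith
  have i5 : s * (D + r * X) ≤ s * 0.024 := by
    have y3 : s * (s * u * v) = 3 * (u * v) := by linear_combination u * v * h33
    have y4 : s * (s / 2 * u) = 3 / 2 * u := by linear_combination u / 2 * h33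
    have z1 : s * (1 / 2 * (1 - 2 * u ^ 2)) ≤ 1.73206 * (1 / 2 * (1 - 2 * u ^ 2)) :=
      mul_le_mul_of_nonneg_right hs2.le (by linarith [sq_nonneg u])
    have z2 : 1.73205 * (1 / 2 * v) ≤ s * (1 / 2 * v) :=
      mul_le_mul_of_nonneg_right hs1.le (by linarith)
    have z3 : 1.73205 * ((1 - 4 * u ^ 2) * 0.2415) ≤ s * ((1 - 4 * u ^ 2) * 0.2415) :=
      mul_le_mul_of_nonneg_right hs1.le (by linarith)
    have z4 : 1.73205 * (2 - 4 * u) ≤ s * (2 - 4 * u) :=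
      mul_le_mul_of_nonneg_right hs1.le (by linarith)
    have uv1 : u * v ≤ u * (1 - u ^ 2 / 2) := mul_le_mul_of_nonneg_left v1 u0
    have e5 : s * (D + r * X)
        = s * 0.2589 + 0.483 * (s * (1 / 2 * (1 - 2 * u ^ 2))) + 0.483 * (3 * (u * v))
          - s * (1 / 2 * v) - 3 / 2 * u + s * r * X := by
      rw [hD]
      linear_combination 0.483 * y3 - y4
    rw [e5]
    have w1 : 0 ≤ (u + 0.38) * (u - 0.19) ^ 2 := mul_nonneg (by linarith) (sq_nonneg _)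
    have w2 : 0 ≤ u ^ 3 * (0.25882 - u) := mul_nonneg (by positivity) (by linarith)
    have w4 := sq_nonneg (u - 0.1808)
    linarith
  exact le_of_mul_le_mul_left i5 (by linarith)

/-- the situation -/
structure Sit (al r w w' : ℝ) : Prop where
  h0 : 0 ≤ al
  h1 : al ≤ π / 6
  hr : 0 ≤ r
  hR : r ≤ cos al - √(1 / 4 - sin al ^ 2)
  hw0 : -(π / 2) ≤ w
  hw1 : w ≤ π / 3 - al
  hv0 : -(π / 2) ≤ w'
  hv1 : w' ≤ π / 3 + al
  hs : sin w = sin (π / 3 - al) - √3 / 2 * r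
  hs' : sin w' = sin (π / 3 + al) - √3 / 2 * r

lemma case1 {al r w w' : ℝ} (H : Sit al r w w') (hA : w' ≤ π / 6) (hB : w ≤ π / 6) :
    r - (sin (π / 4 + al / 2) + sin (π / 4 - al / 2)) + sin (π / 12 + w / 2)
      + sin (π / 12 + w' / 2) ≤ 24 / 1000 := by
  obtain ⟨h0, h1, hr, hR, hw0, hw1, hv0, hv1, hs, hs'⟩ := H
  have hpi := pi_pos
  have hal : |al| ≤ π / 6 := by rw [abs_of_nonneg h0]; exact h1
  have hc0 : √3 / 2 ≤ cos al := cos_lo hal
  have hc1 : cos al ≤ 1 := cos_le_one _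
  have sb : sin (π / 3 - al) = √3 / 2 * cos al - 1 / 2 * sin al := by
    rw [sin_sub, sin_pi_div_three, cos_pi_div_three]
  have sb' : sin (π / 3 + al) = √3 / 2 * cos al + 1 / 2 * sin al := by
    rw [sin_add, sin_pi_div_three, cos_pi_div_three]
  have l1 := line hw0 hB
  have l2 := line hv0 hA
  obtain ⟨g, hg⟩ : ∃ g, g = sin (π / 4 + al / 2) + sin (π / 4 - al / 2) := ⟨_, rfl⟩
  have eg : g = √2 * cos (al / 2) := by
    rw [hg, sin_add, sin_sub, sin_pi_div_four]; ring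
  have cg0 : 0 ≤ cos (al / 2) :=
    cos_nonneg_of_neg_pi_div_two_le_of_le (by linarith) (by linarith)
  have g0 : 0 ≤ g := by rw [eg]; exact mul_nonneg (sqrt_nonneg _) cg0
  have g2 : g ^ 2 = 1 + cos al := by
    have : cos al = 2 * cos (al / 2) ^ 2 - 1 := by rw [← cos_two_mul]; congr 1; ring
    rw [eg, mul_pow, Real.sq_sqrt (by norm_num), this]; ring
  have sal : sin al ≤ 1 / 2 := sin_hi (by linarith) h1
  have sal0 : 0 ≤ sin al := sin_nonneg_of_nonneg_of_le_pi h0 (by linarith)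
  have Y2 : √(1 / 4 - sin al ^ 2) ^ 2 = cos al ^ 2 - 3 / 4 := by
    have h4 : sin al ^ 2 ≤ (1 / 2) ^ 2 := pow_le_pow_left₀ sal0 sal 2
    rw [Real.sq_sqrt (by linarith)]
    have := sin_sq_add_cos_sq al
    linarith
  have K := case1_real (c := cos al) (g := g) (Y := √(1 / 4 - sin al ^ 2)) (y := cos al - r)
    (s := √3) s3a s3b hc0 hc1 g0 g2 (sqrt_nonneg _) Y2 (by linarith)
  have q2 : sin w + sin w' = √3 * (cos al - r) := by rw [hs, hs', sb, sb']; ring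
  rw [← hg]
  linarith

lemma case2 {al r w w' : ℝ} (H : Sit al r w w') (hA : π / 6 ≤ w') (hB : w ≤ π / 6) :
    r - (sin (π / 4 + al / 2) + sin (π / 4 - al / 2)) + sin (π / 12 + w / 2)
      + sin (π / 12 + w' / 2) ≤ 24 / 1000 := by
  obtain ⟨h0, h1, hr, hR, hw0, hw1, hv0, hv1, hs, hs'⟩ := H
  have hpi := pi_pos
  have eb' : sin (π / 12 + (π / 3 + al) / 2) = sin (π / 4 + al / 2) := by congr 1; ring
  have G' := gain (b := π / 3 + al) (w := w') (r := r) (by linarith) hA hv1 hs'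
  rw [eb'] at G'
  obtain ⟨ψ, hψ⟩ : ∃ ψ, ψ = π / 12 - al / 2 := ⟨_, rfl⟩
  have ψ0 : 0 ≤ ψ := by rw [hψ]; linarith
  have ψ1 : ψ ≤ π / 12 := by rw [hψ]; linarith
  obtain ⟨u, hu⟩ : ∃ u, u = sin ψ := ⟨_, rfl⟩
  obtain ⟨v, hv⟩ : ∃ v, v = cos ψ := ⟨_, rfl⟩
  have e1 : sin (π / 4 + (π / 3 + al) / 2) = v := by
    rw [hv, show π / 4 + (π / 3 + al) / 2 = π / 2 - ψ by rw [hψ]; ring, sin_pi_div_two_sub]
  have e2 : cos (π / 4 + (π / 3 + al) / 2) = u := by
    rw [hu, show π / 4 + (π / 3 + al) / 2 = π / 2 - ψ by rw [hψ]; ring, cos_pi_div_two_sub]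
  rw [e1, e2] at G'
  have u0 : 0 ≤ u := by rw [hu]; exact sin_nonneg_of_nonneg_of_le_pi ψ0 (by linarith)
  have u1 : u ≤ 0.25882 := by
    have : u ≤ sin (π / 12) := by
      rw [hu]
      exact sin_le_sin_of_le_of_le_pi_div_two (by linarith) (by linarith) ψ1
    linarith [s12hi]
  have v0 : 0 < v := by rw [hv]; exact cos_pos_of_mem_Ioo ⟨by linarith, by linarith⟩
  have v1 : v ≤ 1 - u ^ 2 / 2 := by rw [hu, hv]; exact cos_le_sin
  have v2 : 1 - 0.509 * u ^ 2 ≤ v := by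
    have huv : u ^ 2 + v ^ 2 = 1 := by rw [hu, hv]; exact sin_sq_add_cos_sq _
    have x1 : u ^ 2 ≤ 0.25882 ^ 2 := pow_le_pow_left₀ u0 u1 2
    clear G' e1 e2 eb' hs hs' hR hψ hu hv
    by_contra hcon
    rw [not_le] at hcon
    nlinarith [sq_nonneg u]
  have sb2 : sin (π / 3 + al) = 1 - 2 * u ^ 2 := by
    rw [show π / 3 + al = π / 2 - 2 * ψ by rw [hψ]; ring, sin_pi_div_two_sub, cos_two_mul,
      cos_sq', ← hu]; ring
  have half' : 1 / 2 ≤ sin w' := by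
    rw [← sin_pi_div_six]
    exact sin_le_sin_of_le_of_le_pi_div_two (by linarith) (by linarith) hA
  have r2 : √3 * r ≤ 1 - 4 * u ^ 2 := by linarith
  have l1 := line hw0 hB
  have f1 : sin (π / 3 - al) = 1 / 2 * (1 - 2 * u ^ 2) + √3 * u * v := by
    rw [show π / 3 - al = π / 6 + 2 * ψ by rw [hψ]; ring, sin_add, sin_pi_div_six,
      cos_pi_div_six, cos_two_mul, cos_sq', sin_two_mul, ← hu, ← hv]; ring
  have f2 : sin (π / 4 - al / 2) = 1 / 2 * v + √3 / 2 * u := by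
    rw [show π / 4 - al / 2 = π / 6 + ψ by rw [hψ]; ring, sin_add, sin_pi_div_six,
      cos_pi_div_six, ← hu, ← hv]
  obtain ⟨D, hD⟩ : ∃ D, D = 0.2589 + 0.483 * (1 / 2 * (1 - 2 * u ^ 2) + √3 * u * v)
    - (1 / 2 * v + √3 / 2 * u) := ⟨_, rfl⟩
  obtain ⟨X, hX⟩ : ∃ X, X = 1 - 0.483 * (√3 / 2) - 3 / 16 * (1 / v)
    - √3 / 8 * (1 / (u + 1 / 2)) := ⟨_, rfl⟩
  have D1 : D ≤ 0.001 := by rw [hD]; exact D1_real s3a s3b u0 u1 v0.le v1 v2
  have main : D + r * X ≤ 0.024 := by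
    rcases le_total X 0 with hX0 | hX0
    · have : r * X ≤ 0 := mul_nonpos_of_nonneg_of_nonpos hr hX0
      linarith
    · exact X_real s3a s3b (by norm_num) u0 u1 v0 v1 v2 hX0 r2 hX hD
  have G2 : r * (3 / 16 * (1 / v) + √3 / 8 * (1 / (u + 1 / 2)))
      = r * (1 - 0.483 * (√3 / 2)) - r * X := by rw [hX]; ring
  rw [G2] at G'
  have h5 : 0.483 * sin w = 0.483 * (1 / 2 * (1 - 2 * u ^ 2) + √3 * u * v)
      - 0.483 * (√3 / 2) * r := by rw [hs, f1]; ring
  rw [f2]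
  linarith

lemma case3 {al r w w' : ℝ} (H : Sit al r w w') (hA : π / 6 ≤ w') (hB : π / 6 ≤ w) :
    r - (sin (π / 4 + al / 2) + sin (π / 4 - al / 2)) + sin (π / 12 + w / 2)
      + sin (π / 12 + w' / 2) ≤ 24 / 1000 := by
  obtain ⟨h0, h1, hr, hR, hw0, hw1, hv0, hv1, hs, hs'⟩ := H
  have hpi := pi_pos
  have x3 := s3a
  have x4 := s3b
  have eb : sin (π / 12 + (π / 3 - al) / 2) = sin (π / 4 - al / 2) := by congr 1; ring
  have eb' : sin (π / 12 + (π / 3 + al) / 2) = sin (π / 4 + al / 2) := by congr 1; ring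
  have G' := gain (b := π / 3 + al) (w := w') (r := r) (by linarith) hA hv1 hs'
  rw [eb'] at G'
  have G := gain (b := π / 3 - al) (w := w) (r := r) (by linarith) hB hw1 hs
  rw [eb] at G
  obtain ⟨P, hP⟩ : ∃ P, P = sin (π / 4 + (π / 3 - al) / 2) := ⟨_, rfl⟩
  obtain ⟨Q, hQ⟩ : ∃ Q, Q = cos (π / 4 + (π / 3 - al) / 2) := ⟨_, rfl⟩
  obtain ⟨v, hv⟩ : ∃ P, P = sin (π / 4 + (π / 3 + al) / 2) := ⟨_, rfl⟩
  obtain ⟨u, hu⟩ : ∃ Q, Q = cos (π / 4 + (π / 3 + al) / 2) := ⟨_, rfl⟩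
  rw [← hP, ← hQ] at G
  rw [← hv, ← hu] at G'
  have cθ : cos (al / 2) ≤ 1 := cos_le_one _
  have P0 : 0 < P := by rw [hP]; exact sin_pos_of_pos_of_lt_pi (by linarith) (by linarith)
  have v0 : 0 < v := by rw [hv]; exact sin_pos_of_pos_of_lt_pi (by linarith) (by linarith)
  have Q0 : 0 ≤ Q := by
    rw [hQ]; exact cos_nonneg_of_neg_pi_div_two_le_of_le (by linarith) (by linarith)
  have u0 : 0 ≤ u := by
    rw [hu]; exact cos_nonneg_of_neg_pi_div_two_le_of_le (by linarith) (by linarith)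
  have PP : P + v ≤ 1.93186 := by
    have e : P + v = 2 * (cos (π / 12) * cos (al / 2)) := by
      rw [hP, hv, show π / 4 + (π / 3 - al) / 2 = π / 2 - (π / 12 + al / 2) by ring,
        show π / 4 + (π / 3 + al) / 2 = π / 2 - (π / 12 - al / 2) by ring,
        sin_pi_div_two_sub, sin_pi_div_two_sub, cos_add, cos_sub]; ring
    rw [e]
    have a := c12hi
    have b : 0 ≤ cos (π / 12) := by linarith [c12lo]
    have : cos (π / 12) * cos (al / 2) ≤ cos (π / 12) * 1 := mul_le_mul_of_nonneg_left cθ b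
    linarith
  have QQ : Q + u ≤ 0.51764 := by
    have e : Q + u = 2 * (sin (π / 12) * cos (al / 2)) := by
      rw [hQ, hu, show π / 4 + (π / 3 - al) / 2 = π / 2 - (π / 12 + al / 2) by ring,
        show π / 4 + (π / 3 + al) / 2 = π / 2 - (π / 12 - al / 2) by ring,
        cos_pi_div_two_sub, cos_pi_div_two_sub, sin_add, sin_sub]; ring
    rw [e]
    have a := s12hi
    have b : 0 ≤ sin (π / 12) := by linarith [S12a]
    have : sin (π / 12) * cos (al / 2) ≤ sin (π / 12) * 1 := mul_le_mul_of_nonneg_left cθ b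
    linarith
  have t1 := inv_tan P0 (by norm_num : (0:ℝ) < 0.966)
  have t2 := inv_tan v0 (by norm_num : (0:ℝ) < 0.966)
  have t3 := inv_tan (by linarith : 0 < Q + 1 / 2) (by norm_num : (0:ℝ) < 0.7588)
  have t4 := inv_tan (by linarith : 0 < u + 1 / 2) (by norm_num : (0:ℝ) < 0.7588)
  have T1 : 2.0704 ≤ 1 / P + 1 / v := by
    have : 2.0704 ≤ (2 * 0.966 - P) / 0.966 ^ 2 + (2 * 0.966 - v) / 0.966 ^ 2 := by
      rw [← add_div, le_div_iff₀ (by norm_num)]
      linarith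
    linarith
  have T2 : 2.6356 ≤ 1 / (Q + 1 / 2) + 1 / (u + 1 / 2) := by
    have : 2.6356 ≤ (2 * 0.7588 - (Q + 1 / 2)) / 0.7588 ^ 2
        + (2 * 0.7588 - (u + 1 / 2)) / 0.7588 ^ 2 := by
      rw [← add_div, le_div_iff₀ (by norm_num)]
      linarith
    linarith
  have T3 : 0.2165 * 2.6356 ≤ √3 / 8 * (1 / (Q + 1 / 2) + 1 / (u + 1 / 2)) :=
    mul_le_mul (by linarith) T2 (by norm_num) (by positivity)
  have T4 : 0.958 ≤ 3 / 16 * (1 / P + 1 / v) + √3 / 8 * (1 / (Q + 1 / 2) + 1 / (u + 1 / 2)) := by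
    linarith
  have T5 := mul_le_mul_of_nonneg_left T4 hr
  have r4 : r ≤ 0.5 := by
    have half : 1 / 2 ≤ sin w := by
      rw [← sin_pi_div_six]
      exact sin_le_sin_of_le_of_le_pi_div_two (by linarith) (by linarith) hB
    have hb : sin (π / 3 - al) ≤ √3 / 2 := by
      rw [← sin_pi_div_three]
      exact sin_le_sin_of_le_of_le_pi_div_two (by linarith) (by linarith) (by linarith)
    have k : √3 / 2 * r ≤ 0.3661 := by linarith
    have k2 : 0.866 * r ≤ √3 / 2 * r := mul_le_mul_of_nonneg_right (by linarith) hr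
    linarith
  linarith

lemma armHa_core {al r w w' : ℝ} (H : Sit al r w w') :
    r - (sin (π / 4 + al / 2) + sin (π / 4 - al / 2)) + sin (π / 12 + w / 2)
      + sin (π / 12 + w' / 2) ≤ 24 / 1000 := by
  have hpi := pi_pos
  have hord : w ≤ w' := by
    by_contra hc
    rw [not_le] at hc
    have h1 : sin w' < sin w :=
      sin_lt_sin_of_lt_of_le_pi_div_two H.hv0 (by linarith [H.hw1, H.h0]) hc
    have hsal : 0 ≤ sin al := sin_nonneg_of_nonneg_of_le_pi H.h0 (by linarith [H.h1])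
    have sb : sin (π / 3 - al) = √3 / 2 * cos al - 1 / 2 * sin al := by
      rw [sin_sub, sin_pi_div_three, cos_pi_div_three]
    have sb' : sin (π / 3 + al) = √3 / 2 * cos al + 1 / 2 * sin al := by
      rw [sin_add, sin_pi_div_three, cos_pi_div_three]
    have h2 := H.hs
    have h3 := H.hs'
    linarith
  rcases le_total w' (π / 6) with hA | hA
  · exact case1 H hA (by linarith)
  · rcases le_total w (π / 6) with hB | hB
    · exact case2 H hA hB
    · exact case3 H hA hB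

open H11ST.NH in
lemma armHa_pos {al r Up Um : ℝ} (h0 : 0 ≤ al) (h1 : al ≤ π / 6) (h : Arm al r Up Um)
    (hR : r ≤ cos al - √(1 / 4 - sin al ^ 2)) :
    r ≤ br (π / 2 + al) Um / 2 + br (π / 2 - al) Up / 2 + 24 / 1000 := by
  have hpi := pi_pos
  have h3 : 0 < √3 := by positivity
  have rel : ∀ b U : ℝ, r = 4 / √3 * (sin (U / 2) * cos (b - U / 2)) →
      sin (b - U) = sin b - √3 / 2 * r := by
    intro b U hh
    have e1 : sin b = sin ((b - U / 2) + U / 2) := by congr 1; ring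
    have e2 : sin (b - U) = sin ((b - U / 2) - U / 2) := by congr 1; ring
    have e3 : √3 / 2 * r = 2 * (sin (U / 2) * cos (b - U / 2)) := by
      rw [hh]
      field_simp
      ring
    rw [e3, e2, e1, sin_add, sin_sub]
    ring
  have K := armHa_core (al := al) (r := r) (w := π / 3 - al - Up) (w' := π / 3 + al - Um)
    ⟨h0, h1, h.r0, hR, h.wp, by linarith [h.up0], h.wm, by linarith [h.um0],
      rel _ _ h.up, rel _ _ h.um⟩
  unfold br ch
  have e1 : sin ((π / 2 + al) / 2) = sin (π / 4 + al / 2) := by congr 1; ring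
  have e2 : sin ((π / 2 - al) / 2) = sin (π / 4 - al / 2) := by congr 1; ring
  have e3 : sin ((π / 2 + al - Um) / 2) = sin (π / 12 + (π / 3 + al - Um) / 2) := by
    congr 1; ring
  have e4 : sin ((π / 2 - al - Up) / 2) = sin (π / 12 + (π / 3 - al - Up) / 2) := by
    congr 1; ring
  rw [e1, e2, e3, e4]
  linarith

open H11ST.NH in
theorem st_ARMHa : ST_ARMHa := by
  intro al r Up Um hal h hR
  obtain ⟨a1, a2⟩ := abs_le.mp hal
  rcases le_total 0 al with h0 | h0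
  · exact armHa_pos h0 a2 h hR
  · have K := armHa_pos (al := -al) (by linarith) (by linarith) h.mirror
      (by rw [cos_neg, sin_neg, neg_sq]; exact hR)
    rw [sub_neg_eq_add, ← sub_eq_add_neg] at K
    linarith

end Pool.Agent.Helper33.N2
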