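import Pool.Agent.Helper33.N2.Half

/-!
# The stronger five-chord inequality for gap sum at least 160 degrees
-/

open Real

namespace Pool.Agent.Helper33.N2

lemma LH2b {p q r t u v e G : ℝ} (hp : 0.965 ≤ p) (hq : 0.99 ≤ q)
    (hr : 0.85 ≤ r) (hr1 : r ≤ 0.966)
    (ht : 0.4825 ≤ t) (ht1 : t ≤ 0.5) (hu0 : 0 ≤ u) (hv0 : 0 ≤ v) (he : 0.0436 ≤ e)
    (hue : u + e ≤ 0.1309) (huv : 2 * u + v ≤ 2 * e) (hG : 0.031 + 0.185 * (e - 0.0437) ≤ G) :
    0.024 < G - 2.864 * u ^ 2 - 2 * v ^ 2 + 0.608 * (p * u + q * v) ^ 2 + |r * u - t * v| := by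
  have s := sqlow hp hq hu0 hv0
  have z1 : 0.85 * u - 0.5 * v ≤ |r * u - t * v| := by
    have y1 := mul_le_mul_of_nonneg_right hr hu0
    have y2 := mul_le_mul_of_nonneg_right ht1 hv0
    linarith [le_abs_self (r * u - t * v)]
  have z2 : 0.4825 * v - 0.966 * u ≤ |r * u - t * v| := by
    have y1 := mul_le_mul_of_nonneg_right hr1 hu0
    have y2 := mul_le_mul_of_nonneg_right ht hv0
    linarith [neg_le_abs (r * u - t * v)]
  have z0 : 0 ≤ |r * u - t * v| := abs_nonneg _
  have c0 : 0 ≤ u * v := mul_nonneg hu0 hv0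
  have g : 4 * u + v ≤ 0.2618 := by linarith
  have hE : 0.2 * 0.0436 + 0.8 * (u + v / 2) ≤ e := by linarith
  rcases le_total v (2 * u) with hc | hc
  · nlinarith [mul_nonneg hu0 (by linarith : 0 ≤ 0.2618 - 4 * u - v),
      mul_nonneg hv0 (by linarith : 0 ≤ 0.2618 - 4 * u - v),
      mul_nonneg hv0 (by linarith : 0 ≤ 2 * u - v), mul_nonneg hu0 (by linarith : 0 ≤ 2 * u - v)]
  · nlinarith [mul_nonneg hu0 (by linarith : 0 ≤ 0.2618 - 4 * u - v),
      mul_nonneg (by linarith : 0 ≤ v - 2 * u) (by linarith : 0 ≤ 0.2618 - 4 * u - v),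
      mul_nonneg hu0 (by linarith : 0 ≤ v - 2 * u)]

lemma g34Hb {w : ℝ} (h0 : π / 18 ≤ w) (h1 : w ≤ π / 12) :
    0.031 + 0.185 * (w - π / 24 - 0.0437) ≤
      √3 + 2 * cos (2 * w) - 4 * sin (π / 4 - w) - 2 * sin (π / 6 + w) := by
  have p1 := pi_gt_d4
  have p2 := pi_lt_d4
  have q := g34q w
  have s0 : 0 < w := by linarith
  have hq1 : sin w ≤ 0.2589 := by
    have a : sin w ≤ sin (π / 12) :=
      sin_le_sin_of_le_of_le_pi_div_two (by linarith) (by linarith) h1
    have b : sin (π / 12) ≤ 0.2589 := by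
      have h : sin (π / 12) ^ 2 = 1 / 2 - √3 / 4 := by
        rw [sin_sq, cos_sq, show 2 * (π / 12) = π / 6 by ring, cos_pi_div_six]; ring
      have := s3a
      by_contra hc
      rw [not_le] at hc
      nlinarith
    linarith
  have hq2 : 0.1736 + 0.97 * (w - π / 18) ≤ sin w := by
    have a := sin_gt_sub_cube s0
    have b1 : 0 ≤ w * ((w - 0.1745) * (0.2618 - w)) :=
      mul_nonneg s0.le (mul_nonneg (by linarith) (by linarith))
    have b2 : 0 ≤ (w - 0.1745) * (0.2618 - w) := mul_nonneg (by linarith) (by linarith)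
    nlinarith
  rw [abs_of_nonneg (by linarith)] at q
  have y2 : 0 ≤ (sin w - 0.1736) * (0.2589 - sin w) :=
    mul_nonneg (by linarith) (by linarith)
  nlinarith

lemma KHb {w x y : ℝ} (hw : π / 18 ≤ w) (hwx : w + |x| ≤ π / 12) (hy : |y| ≤ π / 12)
    (hxy : |2 * x - y| ≤ 2 * (w - π / 24)) :
    0.024 < FF w x y - 4 * sin (π / 4 - w) * cos x - 2 * sin (π / 6 + w) * cos (x - y) := by
  have p1 := pi_gt_d4
  have p2 := pi_lt_d4
  have hx0 := abs_nonneg x
  have hx : |x| ≤ π / 24 := by linarith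
  obtain ⟨k1, _⟩ := KC0 (y := y) (by linarith : π / 24 ≤ w) hwx
  have g := g34Hb hw (by linarith)
  have cx : 0.99 ≤ cos x := by
    have a := one_sub_sq_div_two_le_cos (x := x)
    have b : x ^ 2 ≤ 0.1309 ^ 2 := by
      rw [← sq_abs]
      exact pow_le_pow_left₀ (abs_nonneg x) (by linarith) 2
    norm_num at b
    linarith
  have cy : 0.965 ≤ cos y := cos_lo12 hy
  have cx1 := cos_le_one x
  have cy1 := cos_le_one y
  have cw : √3 / 2 ≤ cos (2 * w) := cos_lo (by rw [abs_of_nonneg (by linarith)]; linarith)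
  have cw2 : cos (2 * w) ≤ 0.966 := by
    have : cos (2 * w) ≤ cos (π / 12) :=
      cos_le_cos_of_nonneg_of_le_pi (by linarith) (by linarith) (by linarith)
    linarith [C12b]
  have hr : 0.85 ≤ cos (2 * w) * cos x := by nlinarith [s3a]
  have hr1 : cos (2 * w) * cos x ≤ 0.966 := by nlinarith [s3a]
  have hv : |sin y| ≤ 0.2618 := abs_sin_le (by linarith)
  have hux : |sin x| ≤ |x| := abs_sin_le_abs
  have hvy : |sin y| ≤ |y| := abs_sin_le_abs
  have hu : |sin x| ≤ 0.1309 := by linarith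
  rcases le_total 0 (sin x * sin y) with hs | hs
  · -- same signs
    have L := LC1 (p := cos y) (q := cos x) (r := cos (2 * w) * cos x) (t := cos y / 2)
      (u := |sin x|) (v := |sin y|) (by linarith) cy1 (by linarith) cx1 hr (by linarith)
      (abs_nonneg _) (abs_nonneg _) hu hv
    have e1 : (cos y * |sin x| - cos x * |sin y|) ^ 2
        = (cos y * sin x - cos x * sin y) ^ 2 := by
      have a : |sin x| * |sin y| = sin x * sin y := by rw [← abs_mul, abs_of_nonneg hs]
      have b : |sin x| ^ 2 = sin x ^ 2 := sq_abs _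
      have c : |sin y| ^ 2 = sin y ^ 2 := sq_abs _
      linear_combination cos y ^ 2 * b + cos x ^ 2 * c - 2 * cos x * cos y * a
    rw [e1, abs_same _ _ hs, sq_abs, sq_abs] at L
    have := sq_nonneg (cos y * sin x - cos x * sin y)
    have := sq_nonneg (sin x)
    linarith
  · -- opposite signs
    have e5 : 2 * |x| + |y| = |2 * x - y| := by
      have hs' : (2 * x) * y ≤ 0 := by
        by_contra hc
        rw [not_le] at hc
        have q1 : |x| < π := by linarith
        have q2 : |y| < π := by linarith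
        obtain ⟨x1, x2⟩ := abs_lt.mp q1
        obtain ⟨y1, y2⟩ := abs_lt.mp q2
        rcases pos_and_pos_or_neg_and_neg_of_mul_pos hc with ⟨a, b⟩ | ⟨a, b⟩
        · have := mul_pos (sin_pos_of_pos_of_lt_pi (by linarith : 0 < x) x2)
            (sin_pos_of_pos_of_lt_pi b y2)
          linarith
        · have := mul_pos_of_neg_of_neg
            (sin_neg_of_neg_of_neg_pi_lt (by linarith : x < 0) x1)
            (sin_neg_of_neg_of_neg_pi_lt b y1)
          linarith
      have a := opp2 (p := 1) (q := 1) (u := 2 * x) (v := y) zero_le_one zero_le_one hs'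
      rw [one_mul, one_mul, one_mul, one_mul, abs_mul, abs_two] at a
      exact a
    have L := LH2b (p := cos y) (q := cos x)
      (r := cos (2 * w) * cos x) (t := cos y / 2) (u := |sin x|) (v := |sin y|)
      (e := w - π / 24) (G := √3 + 2 * cos (2 * w) - 4 * sin (π / 4 - w) - 2 * sin (π / 6 + w))
      cy cx hr hr1 (by linarith) (by linarith) (abs_nonneg _) (abs_nonneg _) (by linarith)
      (by linarith) (by linarith) g
    have e3 : (cos y * |sin x| + cos x * |sin y|) ^ 2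
        = (cos y * sin x - cos x * sin y) ^ 2 := by
      rw [opp2 (by linarith) (by linarith) hs, sq_abs]
    rw [e3, abs_opp _ _ hs, sq_abs, sq_abs] at L
    linarith

open H11ST.NH in
/-- the row BASEH with 160 instead of 164 degrees -/
theorem baseH160 : ∀ A B C D O : ℝ, Box A B C D O →
    2 * π / 3 - A - C ≤ π / 3 + C - O → 2 * π / 3 - B - D ≤ π / 3 + D + O →
    160 / 180 * π ≤ (π / 3 + C - O) + (π / 3 + D + O) →
    ch (A + B) + ch (2 * π / 3 - A - C) + ch (π / 3 + C - O) / 2 + ch (π / 3 + D + O) / 2 +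
        ch (2 * π / 3 - B - D) + 24 / 1000 <
      cos A + cos B + cos C + cos D + cos O := by
  intro A B C D O hb h12 h43 hsum
  have hpi := pi_pos
  obtain ⟨hA, hB, hC, hD, hO, hbal⟩ := hb
  have e : sin A - sin B = sin C - sin D + sin O := by linarith
  have g0 : ch (A + B) = 2 * sin ((A + B) / 2) := rfl
  have g1 : ch (2 * π / 3 - A - C) = 2 * sin (π / 3 - (A + C) / 2) := by
    unfold ch; congr 2; ring
  have g2 : ch (π / 3 + C - O) = 2 * sin (π / 6 + (C - O) / 2) := by
    unfold ch; congr 2; ring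
  have g3 : ch (π / 3 + D + O) = 2 * sin (π / 6 + (D + O) / 2) := by
    unfold ch; congr 2; ring
  have g4 : ch (2 * π / 3 - B - D) = 2 * sin (π / 3 - (B + D) / 2) := by
    unfold ch; congr 2; ring
  rw [g0, g1, g2, g3, g4]
  have N := near hA hB hC hD (a := 1) (b := 1) (by norm_num) le_rfl (by norm_num) le_rfl
  rw [e] at N
  obtain ⟨w, hw⟩ : ∃ w, w = (C + D) / 4 := ⟨_, rfl⟩
  obtain ⟨x, hx⟩ : ∃ x, x = (C - D) / 4 := ⟨_, rfl⟩
  obtain ⟨y, hy⟩ : ∃ y, y = O / 2 := ⟨_, rfl⟩
  have eC : C = 2 * w + 2 * x := by rw [hw, hx]; ring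
  have eD : D = 2 * w - 2 * x := by rw [hw, hx]; ring
  have eO : O = 2 * y := by rw [hy]; ring
  obtain ⟨a1, a2⟩ := abs_le.mp hA
  obtain ⟨b1, b2⟩ := abs_le.mp hB
  obtain ⟨c1, c2⟩ := abs_le.mp hC
  obtain ⟨d1, d2⟩ := abs_le.mp hD
  have hy' : |y| ≤ π / 12 := by rw [hy, abs_div, abs_two]; linarith
  have wx : w + |x| ≤ π / 12 := by
    rcases abs_cases x with ⟨e, _⟩ | ⟨e, _⟩ <;> rw [e] <;> linarith
  have hw' : π / 18 ≤ w := by linarith
  have hxy : |2 * x - y| ≤ 2 * (w - π / 24) := by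
    rw [abs_le]; constructor <;> linarith
  have K := KHb hw' wx hy' hxy
  have hF : |sin C - sin D + sin O| / 4 + √3 - 1 + cos C + cos D + cos O = FF w x y := by
    have t1 : sin C - sin D + sin O = 2 * cos (2 * w) * sin (2 * x) + sin (2 * y) := by
      rw [eC, eD, eO, sin_add, sin_sub]; ring
    have t2 : cos C + cos D = 2 * cos (2 * w) * cos (2 * x) := by
      rw [eC, eD, cos_add, cos_sub]; ring
    have t3 : cos O = cos (2 * y) := by rw [eO]
    unfold FF
    rw [← t1, ← t2, ← t3]; ring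
  have q1 : sin (π / 4 - C / 2) = sin (π / 4 - w - x) := by congr 1; rw [eC]; ring
  have q2 : sin (π / 4 - D / 2) = sin (π / 4 - w + x) := by congr 1; rw [eD]; ring
  have q3 : sin (π / 6 + (C - O) / 2) = sin (π / 6 + w + (x - y)) := by
    congr 1; rw [eC, eO]; ring
  have q4 : sin (π / 6 + (D + O) / 2) = sin (π / 6 + w - (x - y)) := by
    congr 1; rw [eD, eO]; ring
  have r1 := ss2 (π / 4 - w) x
  have r2 := ss2 (π / 6 + w) (x - y)
  rw [q1, q2] at N
  rw [q3, q4]
  linarith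

end Pool.Agent.Helper33.N2
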