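import Mathlib

/-!
# The five-chord inequality behind `N_2(1/2) = 2`

Five unit vectors with directions within thirty degrees of the five directions of a
five-armed tree and in torque balance: the sum of the cosines is larger than the perimeter of the
pentagon of the endpoints minus one of its sides.
-/

open Real

namespace Pool.Agent.Helper33.N2

lemma s3a : (1.73205:ℝ) < √3 := by
  rw [Real.lt_sqrt (by norm_num)]; norm_num
lemma s3b : √3 < (1.73206:ℝ) := by
  rw [Real.sqrt_lt' (by norm_num)]; norm_num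
lemma s2a : (1.41421:ℝ) < √2 := by
  rw [Real.lt_sqrt (by norm_num)]; norm_num
lemma s2b : √2 < (1.41422:ℝ) := by
  rw [Real.sqrt_lt' (by norm_num)]; norm_num

lemma cos_lo {k : ℝ} (h : |k| ≤ π / 6) : √3 / 2 ≤ cos k := by
  rw [← cos_pi_div_six, ← cos_abs k]
  exact cos_le_cos_of_nonneg_of_le_pi (abs_nonneg k) (by linarith [pi_pos]) h

lemma sin_hi {k : ℝ} (h0 : -(π / 2) ≤ k) (h : k ≤ π / 6) : sin k ≤ 1 / 2 := by
  rw [← sin_pi_div_six]
  exact sin_le_sin_of_le_of_le_pi_div_two (by linarith) (by linarith [pi_pos]) h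

lemma ss1 (a b : ℝ) : sin (a + b) - sin (a - b) = 2 * (sin b * cos a) := by
  rw [sin_add, sin_sub]; ring

lemma ss2 (a b : ℝ) : sin (a + b) + sin (a - b) = 2 * (sin a * cos b) := by
  rw [sin_add, sin_sub]; ring

/-- The one-variable end case of the first step. -/
lemma V1 {k : ℝ} (hk : 0 ≤ k) (hs : k ≤ π / 6) :
    0 ≤ 2 * cos (π / 6 - k) * cos k - √3 - 2 * sin (π / 6 - k) + 3
      - 4 * sin (π / 6 + k / 2) * cos (k / 2) - cos (π / 6 - k) * sin k / 2 := by
  have e1 : cos (π / 6 - k) = √3 / 2 * cos k + 1 / 2 * sin k := by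
    rw [cos_sub, cos_pi_div_six, sin_pi_div_six]
  have e2 : sin (π / 6 - k) = 1 / 2 * cos k - √3 / 2 * sin k := by
    rw [sin_sub, cos_pi_div_six, sin_pi_div_six]
  have e3 : sin (π / 6 + k / 2) = 1 / 2 * cos (k / 2) + √3 / 2 * sin (k / 2) := by
    rw [sin_add, cos_pi_div_six, sin_pi_div_six]
  have e4 : cos k = 2 * cos (k / 2) ^ 2 - 1 := by
    rw [← cos_two_mul]; congr 1; ring
  have e5 : sin k = 2 * sin (k / 2) * cos (k / 2) := by
    rw [← sin_two_mul]; congr 1; ring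
  have e6 : 4 * sin (π / 6 + k / 2) * cos (k / 2) = 1 + cos k + √3 * sin k := by
    rw [e3, e4, e5]; ring
  have hS : 0 ≤ sin k := sin_nonneg_of_nonneg_of_le_pi hk (by linarith [pi_pos])
  have hS2 : sin k ≤ 1 / 2 := sin_hi (by linarith [pi_pos]) hs
  have hC : √3 / 2 ≤ cos k := cos_lo (by rw [abs_of_nonneg hk]; exact hs)
  have hC1 : cos k ≤ 1 := cos_le_one k
  have hsq := sin_sq_add_cos_sq k
  have h33 : √3 ^ 2 = 3 := by norm_num
  rw [e6, e1, e2]
  have a1 : sin k ^ 2 ≤ 2 * (1 - cos k) := by nlinarith [sq_nonneg (1 - cos k)]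
  have a2 : 0 ≤ sin k * ((1 - √3 / 4) * (cos k - √3 * sin k)) := by
    refine mul_nonneg hS (mul_nonneg ?_ ?_)
    · linarith [s3b]
    · nlinarith [s3a]
  have a3 : sin k * ((1 - √3 / 4) * (cos k - √3 * sin k))
      = sin k * cos k * (1 - √3 / 4) - (√3 - 3 / 4) * sin k ^ 2 := by
    have : sin k * ((1 - √3 / 4) * (cos k - √3 * sin k))
      = sin k * cos k * (1 - √3 / 4) - (√3 - √3 ^ 2 / 4) * sin k ^ 2 := by ring
    rw [this, h33]
  have a4 : 2 * (√3 / 2 * cos k + 1 / 2 * sin k) * cos k - √3 - 2 * (1 / 2 * cos k - √3 / 2 * sin k)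
      + 3 - (1 + cos k + √3 * sin k) - (√3 / 2 * cos k + 1 / 2 * sin k) * sin k / 2
      = sin k * cos k * (1 - √3 / 4) - (√3 - 3 / 4) * sin k ^ 2 + (2 * (1 - cos k) - sin k ^ 2)
        + √3 * (sin k ^ 2 + cos k ^ 2 - 1) := by ring
  rw [a4, ← a3, hsq]
  linarith

/-- First step in half sums. -/
lemma W1 {h k : ℝ} (hh : 0 ≤ h) (hk : 0 ≤ k) (hs : h + k ≤ π / 6) :
    cos h * sin k / 2 ≤ 2 * cos h * cos k - √3 - 2 * sin h + 3
      - 4 * sin (π / 4 - h / 2) * cos (k / 2) := by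
  have hpi := pi_pos
  obtain ⟨h1, hh1⟩ : ∃ h1, h1 = π / 6 - k := ⟨_, rfl⟩
  have hle : h ≤ h1 := by linarith
  have V := V1 hk (by linarith : k ≤ π / 6)
  rw [← hh1, show π / 6 + k / 2 = π / 4 - h1 / 2 by rw [hh1]; ring] at V
  obtain ⟨d, hd⟩ : ∃ d, d = (h1 - h) / 4 := ⟨_, rfl⟩
  obtain ⟨u, hu⟩ : ∃ u, u = (h1 + h) / 2 := ⟨_, rfl⟩
  have hd0 : 0 ≤ d := by rw [hd]; linarith
  have b1 : cos h1 ≤ cos h := cos_le_cos_of_nonneg_of_le_pi hh (by linarith) hle
  have b2 : 0 ≤ 2 * cos k - sin k / 2 := by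
    have := cos_lo (k := k) (by rw [abs_of_nonneg hk]; linarith)
    have := sin_le_one k
    linarith [s3a]
  have c1 : cos (π / 6) ≤ cos d * cos u := by
    have x1 : cos (π / 6) ≤ cos (u + d) :=
      cos_le_cos_of_nonneg_of_le_pi (by linarith) (by linarith) (by linarith)
    have x2 : cos (π / 6) ≤ cos (u - d) :=
      cos_le_cos_of_nonneg_of_le_pi (by linarith) (by linarith) (by linarith)
    rw [cos_add] at x1
    rw [cos_sub] at x2
    linarith
  have c2 : cos (π / 4 - u / 2) ≤ cos (π / 6) :=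
    cos_le_cos_of_nonneg_of_le_pi (by linarith) (by linarith) (by linarith)
  have c3 : 0 ≤ cos (π / 4 - u / 2) :=
    cos_nonneg_of_neg_pi_div_two_le_of_le (by linarith) (by linarith)
  have c4 : cos (k / 2) * cos (π / 4 - u / 2) ≤ cos d * cos u := by
    have := cos_le_one (k / 2)
    nlinarith
  have c5 : 0 ≤ sin d := sin_nonneg_of_nonneg_of_le_pi hd0 (by linarith)
  have c6 := mul_le_mul_of_nonneg_left c4 c5
  have f1 : sin h1 - sin h = 4 * (sin d * (cos d * cos u)) := by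
    have q1 : sin h1 = sin (u + 2 * d) := by congr 1; rw [hu, hd]; ring
    have q2 : sin h = sin (u - 2 * d) := by congr 1; rw [hu, hd]; ring
    rw [q1, q2, sin_add, sin_sub, sin_two_mul]; ring
  have f2 : sin (π / 4 - h / 2) - sin (π / 4 - h1 / 2) = 2 * (sin d * cos (π / 4 - u / 2)) := by
    have q1 : sin (π / 4 - h / 2) = sin (π / 4 - u / 2 + d) := by congr 1; rw [hu, hd]; ring
    have q2 : sin (π / 4 - h1 / 2) = sin (π / 4 - u / 2 - d) := by congr 1; rw [hu, hd]; ring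
    rw [q1, q2, ss1]
  have f3 : sin (π / 4 - h / 2) = sin (π / 4 - h1 / 2) + 2 * (sin d * cos (π / 4 - u / 2)) := by
    linarith
  have f4 : sin h = sin h1 - 4 * (sin d * (cos d * cos u)) := by linarith
  have b3 := mul_nonneg b2 (sub_nonneg.mpr b1)
  rw [f3, f4]
  nlinarith

/-- First step. -/
lemma step1 {A B : ℝ} (hA : A ≤ π / 6) (hB : B ≤ π / 6) (h0 : 0 ≤ A + B) :
    |sin A - sin B| / 4 ≤ cos A + cos B - √3 - 2 * sin ((A + B) / 2) + 3
      - 2 * sin (π / 4 - A / 2) - 2 * sin (π / 4 - B / 2) := by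
  have hpi := pi_pos
  obtain ⟨h, hh⟩ : ∃ h, h = (A + B) / 2 := ⟨_, rfl⟩
  obtain ⟨k, hk⟩ : ∃ k, k = (A - B) / 2 := ⟨_, rfl⟩
  have eA : A = h + k := by rw [hh, hk]; ring
  have eB : B = h - k := by rw [hh, hk]; ring
  have hs : h + |k| ≤ π / 6 := by
    rcases abs_cases k with ⟨e, _⟩ | ⟨e, _⟩ <;> rw [e] <;> linarith
  have h00 : 0 ≤ h := by rw [hh]; linarith
  have hk0 := abs_nonneg k
  have w := W1 h00 hk0 hs
  have i1 : cos |k| = cos k := cos_abs k
  have i2 : cos (|k| / 2) = cos (k / 2) := by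
    rw [← cos_abs (k / 2), abs_div, abs_two]
  have i3 : |sin A - sin B| = 2 * cos h * sin |k| := by
    have j1 : sin A - sin B = 2 * cos h * sin k := by
      rw [eA, eB, sin_add, sin_sub]; ring
    have j2 : 0 ≤ cos h := cos_nonneg_of_neg_pi_div_two_le_of_le (by linarith) (by linarith)
    have j3 : |sin k| = sin |k| := by
      rcases le_total 0 k with hc | hc
      · rw [abs_of_nonneg hc, abs_of_nonneg]
        exact sin_nonneg_of_nonneg_of_le_pi hc (by rw [abs_of_nonneg hc] at hs; linarith)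
      · rw [abs_of_nonpos hc, sin_neg, abs_of_nonpos]
        exact sin_nonpos_of_nonpos_of_neg_pi_le hc (by rw [abs_of_nonpos hc] at hs; linarith)
    rw [j1, abs_mul, abs_of_nonneg (by linarith : 0 ≤ 2 * cos h), j3]
  have i4 : cos A + cos B = 2 * cos h * cos k := by
    rw [eA, eB, cos_add, cos_sub]; ring
  have i5 : 2 * sin (π / 4 - A / 2) + 2 * sin (π / 4 - B / 2)
      = 4 * sin (π / 4 - h / 2) * cos (k / 2) := by
    have q1 : sin (π / 4 - A / 2) = sin (π / 4 - h / 2 - k / 2) := by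
      congr 1; rw [eA]; ring
    have q2 : sin (π / 4 - B / 2) = sin (π / 4 - h / 2 + k / 2) := by
      congr 1; rw [eB]; ring
    rw [q1, q2]
    linarith [ss2 (π / 4 - h / 2) (k / 2)]
  rw [i1, i2] at w
  rw [i3, ← hh]
  linarith

/-- The bracket estimate. -/
lemma brk {A C : ℝ} (hA : |A| ≤ π / 6) (hC : |C| ≤ π / 6) :
    2 * sin (π / 3 - (A + C) / 2) ≤ 2 * sin (π / 4 - C / 2) + 2 * sin (π / 4 - A / 2) - 1 := by
  have hpi := pi_pos
  obtain ⟨a1, a2⟩ := abs_le.mp hA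
  obtain ⟨c1, c2⟩ := abs_le.mp hC
  obtain ⟨e, he⟩ : ∃ e, e = π / 24 - A / 4 := ⟨_, rfl⟩
  have he0 : 0 ≤ sin e := sin_nonneg_of_nonneg_of_le_pi (by linarith) (by linarith)
  have k1 : cos (7 * π / 24 - A / 4 - C / 2) ≤ cos (5 * π / 24 - A / 4) :=
    cos_le_cos_of_nonneg_of_le_pi (by linarith) (by linarith) (by linarith)
  have k2 := mul_le_mul_of_nonneg_left k1 he0
  have g1 : sin (π / 3 - (A + C) / 2) - sin (π / 4 - C / 2)
      = 2 * (sin e * cos (7 * π / 24 - A / 4 - C / 2)) := by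
    have q1 : sin (π / 3 - (A + C) / 2) = sin (7 * π / 24 - A / 4 - C / 2 + e) := by
      congr 1; rw [he]; ring
    have q2 : sin (π / 4 - C / 2) = sin (7 * π / 24 - A / 4 - C / 2 - e) := by
      congr 1; rw [he]; ring
    rw [q1, q2, ss1]
  have g2 : sin (π / 4 - A / 2) - sin (π / 6) = 2 * (sin e * cos (5 * π / 24 - A / 4)) := by
    have q1 : sin (π / 4 - A / 2) = sin (5 * π / 24 - A / 4 + e) := by
      congr 1; rw [he]; ring
    have q2 : sin (π / 6) = sin (5 * π / 24 - A / 4 - e) := by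
      congr 1; rw [he]; ring
    rw [q1, q2, ss1]
  rw [sin_pi_div_six] at g2
  linarith

/-- Algebra of the second step, chords 3 or 4 omitted. -/
lemma L34 {p q r t u v : ℝ} (hp : 0.96 ≤ p) (hp1 : p ≤ 1) (hq : 0.96 ≤ q)
    (hr : 0.85 ≤ r) (ht : 0.48 ≤ t) (hu : |u| ≤ 0.1309) (hv : |v| ≤ 0.2619) :
    4 * u ^ 2 + 2 * v ^ 2 ≤ |p * u - q * v| + |r * u + t * v| := by
  have key : ∀ u v : ℝ, 0 ≤ u → |u| ≤ 0.1309 → |v| ≤ 0.2619 →
      4 * u ^ 2 + 2 * v ^ 2 ≤ |p * u - q * v| + |r * u + t * v| := by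
    intro u v hu0 hu hv
    rw [abs_of_nonneg hu0] at hu
    have hu2 : 4 * u ^ 2 ≤ 0.5236 * u := by nlinarith
    rcases le_total 0 v with hv0 | hv0
    · rw [abs_of_nonneg hv0] at hv
      have hv2 : 2 * v ^ 2 ≤ 0.5238 * v := by nlinarith
      have a1 : r * u + t * v ≤ |r * u + t * v| := le_abs_self _
      have a2 : -(p * u - q * v) ≤ |p * u - q * v| := neg_le_abs _
      have a3 : 0 ≤ |p * u - q * v| := abs_nonneg _
      have b1 : 0.85 * u ≤ r * u := mul_le_mul_of_nonneg_right hr hu0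
      have b2 : 0.48 * v ≤ t * v := mul_le_mul_of_nonneg_right ht hv0
      have b3 : p * u ≤ 1 * u := mul_le_mul_of_nonneg_right hp1 hu0
      have b4 : 0.96 * v ≤ q * v := mul_le_mul_of_nonneg_right hq hv0
      linarith
    · rw [abs_of_nonpos hv0] at hv
      have hv2 : 2 * v ^ 2 ≤ 0.5238 * (-v) := by nlinarith
      have a1 : p * u - q * v ≤ |p * u - q * v| := le_abs_self _
      have a3 : 0 ≤ |r * u + t * v| := abs_nonneg _
      have b3 : 0.96 * u ≤ p * u := mul_le_mul_of_nonneg_right hp hu0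
      have b4 : 0.96 * (-v) ≤ q * (-v) := mul_le_mul_of_nonneg_right hq (by linarith)
      linarith
  rcases le_total 0 u with h | h
  · exact key u v h hu hv
  · have := key (-u) (-v) (by linarith) (by rwa [abs_neg]) (by rwa [abs_neg])
    have e1 : |p * -u - q * -v| = |p * u - q * v| := by
      rw [← abs_neg]; congr 1; ring
    have e2 : |r * -u + t * -v| = |r * u + t * v| := by
      rw [← abs_neg]; congr 1; ring
    rw [e1, e2] at this
    nlinarith

/-- Algebra of the second step, chords 2 or 5 omitted. -/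
lemma L25 {p q r t u v : ℝ} (hp : 0.965 ≤ p) (hp1 : p ≤ 1) (hq : 0.965 ≤ q) (hq1 : q ≤ 1)
    (hr : 0.93 ≤ r) (hr1 : r ≤ 1) (ht : 0.4825 ≤ t) (hu : |u| ≤ 0.2618) (hv : |v| ≤ 0.2618) :
    4 * u ^ 2 + 2 * v ^ 2 ≤ 1.414 * |u| + (p * u - q * v) ^ 2 + |r * u + t * v| := by
  have key : ∀ u v : ℝ, 0 ≤ u → |u| ≤ 0.2618 → |v| ≤ 0.2618 →
      4 * u ^ 2 + 2 * v ^ 2 ≤ 1.414 * |u| + (p * u - q * v) ^ 2 + |r * u + t * v| := by
    intro u v hu0 hu hv
    rw [abs_of_nonneg hu0] at hu ⊢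
    have hq2 : 0.931 ≤ q ^ 2 := by nlinarith
    have hp2 : 0.931 ≤ p ^ 2 := by nlinarith
    have hpq1 : p * q ≤ 1 := by nlinarith
    have hpq0 : 0 ≤ p * q := by positivity
    rcases le_total 0 v with hv0 | hv0
    · rw [abs_of_nonneg hv0] at hv
      have a1 : r * u + t * v ≤ |r * u + t * v| := le_abs_self _
      have b1 : 0.93 * u ≤ r * u := mul_le_mul_of_nonneg_right hr hu0
      have b2 : 0.4825 * v ≤ t * v := mul_le_mul_of_nonneg_right ht hv0
      have c0 : 0 ≤ u * v := mul_nonneg hu0 hv0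
      have c1 : 2 * (p * q) * (u * v) ≤ 2 * (u * v) := by nlinarith
      have c2 : u * v ≤ 0.2618 * u := by nlinarith
      have c3 : 0.931 * v ^ 2 ≤ q ^ 2 * v ^ 2 := mul_le_mul_of_nonneg_right hq2 (sq_nonneg v)
      have c4 : 0 ≤ p ^ 2 * u ^ 2 := by positivity
      have d1 : (p * u - q * v) ^ 2
          = p ^ 2 * u ^ 2 - 2 * (p * q) * (u * v) + q ^ 2 * v ^ 2 := by ring
      have e1 : u ^ 2 ≤ 0.2618 * u := by nlinarith
      have e2 : v ^ 2 ≤ 0.2618 * v := by nlinarith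
      rw [d1]
      linarith
    · rw [abs_of_nonpos hv0] at hv
      have a1 : -(r * u + t * v) ≤ |r * u + t * v| := neg_le_abs _
      have a0 : 0 ≤ |r * u + t * v| := abs_nonneg _
      have b1 : r * u ≤ 1 * u := mul_le_mul_of_nonneg_right hr1 hu0
      have b2 : 0.4825 * (-v) ≤ t * (-v) := mul_le_mul_of_nonneg_right ht (by linarith)
      have c0 : 0 ≤ u * (-v) := mul_nonneg hu0 (by linarith)
      have c1 : 0 ≤ (p * q) * (u * (-v)) := mul_nonneg hpq0 c0
      have c3 : 0.931 * v ^ 2 ≤ q ^ 2 * v ^ 2 := mul_le_mul_of_nonneg_right hq2 (sq_nonneg v)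
      have c4 : 0.931 * u ^ 2 ≤ p ^ 2 * u ^ 2 := mul_le_mul_of_nonneg_right hp2 (sq_nonneg u)
      have d1 : (p * u - q * v) ^ 2
          = p ^ 2 * u ^ 2 + 2 * ((p * q) * (u * (-v))) + q ^ 2 * v ^ 2 := by ring
      have e1 : u ^ 2 ≤ 0.2618 * u := by nlinarith
      have e2 : v ^ 2 ≤ 0.2618 * (-v) := by nlinarith
      rw [d1]
      nlinarith
  rcases le_total 0 u with h | h
  · exact key u v h hu hv
  · have := key (-u) (-v) (by linarith) (by rwa [abs_neg]) (by rwa [abs_neg])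
    have e1 : (p * -u - q * -v) ^ 2 = (p * u - q * v) ^ 2 := by ring
    have e2 : |r * -u + t * -v| = |r * u + t * v| := by
      rw [← abs_neg]; congr 1; ring
    rw [e1, e2, abs_neg] at this
    nlinarith

/-- `cos w` in terms of `sin w`. -/
lemma cos_le_sin {w : ℝ} : cos w ≤ 1 - sin w ^ 2 / 2 := by
  nlinarith [sin_sq_add_cos_sq w, sq_nonneg (1 - cos w), cos_le_one w]

/-- Third step, large `w`. -/
lemma g34 {w : ℝ} (h0 : π / 24 ≤ w) (h1 : w ≤ π / 12) :
    0 < √3 + 2 * cos (2 * w) - 4 * sin (π / 4 - w) - 2 * sin (π / 6 + w) := by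
  have hpi := pi_pos
  have p1 := pi_gt_d4
  have p2 := pi_lt_d4
  have e1 : sin (π / 4 - w) = √2 / 2 * cos w - √2 / 2 * sin w := by
    rw [sin_sub, sin_pi_div_four, cos_pi_div_four]
  have e2 : sin (π / 6 + w) = 1 / 2 * cos w + √3 / 2 * sin w := by
    rw [sin_add, cos_pi_div_six, sin_pi_div_six]
  have e3 : cos (2 * w) = 1 - 2 * sin w ^ 2 := by
    rw [cos_two_mul, cos_sq']; ring
  have hq1 : sin w ≤ 0.2618 := by
    have := sin_le (by linarith : 0 ≤ w)
    linarith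
  have hq0 : 0.1303 ≤ sin w := by
    have a := sin_gt_sub_cube (by linarith : 0 < π / 24)
    have b : sin (π / 24) ≤ sin w :=
      sin_le_sin_of_le_of_le_pi_div_two (by linarith) (by linarith) h0
    have c : (π / 24) ^ 3 ≤ 0.1309 ^ 3 := by
      apply pow_le_pow_left₀ (by linarith)
      linarith
    have d : (0.1309:ℝ) ^ 3 / 4 ≤ 0.00057 := by norm_num
    linarith
  have hc := cos_le_sin (w := w)
  rw [e1, e2, e3]
  have x1 := s2a
  have x2 := s2b
  have x3 := s3a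
  have x4 := s3b
  have y1 : (2 * √2 + 1) * cos w ≤ (2 * √2 + 1) * (1 - sin w ^ 2 / 2) :=
    mul_le_mul_of_nonneg_left hc (by linarith)
  have y2 : 0 ≤ (sin w - 0.1303) * (0.2618 - sin w) :=
    mul_nonneg (by linarith) (by linarith)
  have y3 : 1.0963 * sin w ≤ (2 * √2 - √3) * sin w :=
    mul_le_mul_of_nonneg_right (by linarith) (by linarith)
  have y4 : √2 * sin w ^ 2 ≥ 1.41421 * sin w ^ 2 :=
    mul_le_mul_of_nonneg_right x1.le (sq_nonneg _)
  nlinarith

/-- Third step, small `w`. -/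
lemma g25 {w : ℝ} (h0 : 0 ≤ w) (h1 : w ≤ π / 24) :
    0 < √3 + 2 * cos (2 * w) - 2 * sin (π / 4 - w) - 4 * sin (π / 6 + w) := by
  have hpi := pi_pos
  have p1 := pi_gt_d4
  have p2 := pi_lt_d4
  have e1 : sin (π / 4 - w) = √2 / 2 * cos w - √2 / 2 * sin w := by
    rw [sin_sub, sin_pi_div_four, cos_pi_div_four]
  have e2 : sin (π / 6 + w) = 1 / 2 * cos w + √3 / 2 * sin w := by
    rw [sin_add, cos_pi_div_six, sin_pi_div_six]
  have e3 : cos (2 * w) = 1 - 2 * sin w ^ 2 := by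
    rw [cos_two_mul, cos_sq']; ring
  have hq1 : sin w ≤ 0.1309 := by
    have := sin_le h0
    linarith
  have hq0 : 0 ≤ sin w := sin_nonneg_of_nonneg_of_le_pi h0 (by linarith)
  have hc := cos_le_sin (w := w)
  rw [e1, e2, e3]
  have x1 := s2a
  have x2 := s2b
  have x3 := s3a
  have x4 := s3b
  have y1 : (√2 + 2) * cos w ≤ (√2 + 2) * (1 - sin w ^ 2 / 2) :=
    mul_le_mul_of_nonneg_left hc (by linarith)
  have y3 : (2 * √3 - √2) * sin w ≤ 2.05 * sin w :=
    mul_le_mul_of_nonneg_right (by linarith) hq0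
  have y4 : √2 * sin w ^ 2 ≥ 1.41421 * sin w ^ 2 :=
    mul_le_mul_of_nonneg_right x1.le (sq_nonneg _)
  have y5 : sin w ^ 2 ≤ 0.01714 := by nlinarith
  nlinarith

/-- Third step, negative `w`. -/
lemma g25n {w : ℝ} (h0 : -(π / 12) ≤ w) (h1 : w ≤ 0) :
    0.3 < √3 + 2 * cos (2 * w) - 2 * sin (π / 4 - w) - 4 * sin (π / 6 + w) := by
  have hpi := pi_pos
  have p1 := pi_gt_d4
  have p2 := pi_lt_d4
  have e1 : sin (π / 4 - w) = √2 / 2 * cos w - √2 / 2 * sin w := by
    rw [sin_sub, sin_pi_div_four, cos_pi_div_four]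
  have e2 : sin (π / 6 + w) = 1 / 2 * cos w + √3 / 2 * sin w := by
    rw [sin_add, cos_pi_div_six, sin_pi_div_six]
  have e3 : cos (2 * w) = 1 - 2 * sin w ^ 2 := by
    rw [cos_two_mul, cos_sq']; ring
  have hq0 : sin w ≤ 0 := sin_nonpos_of_nonpos_of_neg_pi_le h1 (by linarith)
  have hq1 : -0.2618 ≤ sin w := by
    have := le_sin h1
    linarith
  have hc := cos_le_sin (w := w)
  rw [e1, e2, e3]
  have x1 := s2a
  have x2 := s2b
  have x3 := s3a
  have x4 := s3b
  have y1 : (√2 + 2) * cos w ≤ (√2 + 2) * (1 - sin w ^ 2 / 2) :=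
    mul_le_mul_of_nonneg_left hc (by linarith)
  have y3 : 2 * (-sin w) ≤ (2 * √3 - √2) * (-sin w) :=
    mul_le_mul_of_nonneg_right (by linarith) (by linarith)
  have y4 : √2 * sin w ^ 2 ≥ 1.41421 * sin w ^ 2 :=
    mul_le_mul_of_nonneg_right x1.le (sq_nonneg _)
  have y5 : sin w ^ 2 ≤ 0.2618 * (-sin w) := by nlinarith
  nlinarith

lemma cos_lo12 {x : ℝ} (h : |x| ≤ π / 12) : 0.965 ≤ cos x := by
  have p1 := pi_gt_d4
  have p2 := pi_lt_d4
  have a := one_sub_sq_div_two_le_cos (x := x)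
  have b : x ^ 2 ≤ 0.2618 ^ 2 := by
    rw [← sq_abs]
    exact pow_le_pow_left₀ (abs_nonneg x) (by linarith) 2
  norm_num at b
  linarith

lemma abs_sin_le {x c : ℝ} (h : |x| ≤ c) : |sin x| ≤ c :=
  (abs_sin_le_abs).trans h

/-- Chords 3 or 4 omitted. -/
lemma K34 {w x y : ℝ} (hw : π / 24 ≤ w) (hwx : w + |x| ≤ π / 12) (hy : |y| ≤ π / 12) :
    0 < |2 * cos (2 * w) * sin (2 * x) + sin (2 * y)| / 4 + √3 - 1 + 2 * cos (2 * w) * cos (2 * x)
      + cos (2 * y) - 4 * sin (π / 4 - w) * cos x - 2 * sin (π / 6 + w - |x - y|) := by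
  have hpi := pi_pos
  have p1 := pi_gt_d4
  have p2 := pi_lt_d4
  have hx0 := abs_nonneg x
  have hx : |x| ≤ π / 24 := by linarith
  have hw1 : w ≤ π / 12 := by linarith
  have g := g34 hw hw1
  have hu : |sin x| ≤ 0.1309 := abs_sin_le (by linarith)
  have hv : |sin y| ≤ 0.2619 := abs_sin_le (by linarith)
  have cx : 0.965 ≤ cos x := cos_lo12 (by linarith)
  have cy : 0.965 ≤ cos y := cos_lo12 hy
  have cw : √3 / 2 ≤ cos (2 * w) := cos_lo (by rw [abs_of_nonneg (by linarith)]; linarith)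
  have cw1 : cos (2 * w) ≤ 1 := cos_le_one _
  have cx1 := cos_le_one x
  have cy1 := cos_le_one y
  have hr : 0.83 ≤ cos (2 * w) * cos x := by nlinarith [s3a]
  have hr' : 0.85 ≤ cos (2 * w) * cos x := by
    have : 0.99 ≤ cos x := by
      have a := one_sub_sq_div_two_le_cos (x := x)
      have b : x ^ 2 ≤ 0.1309 ^ 2 := by
        rw [← sq_abs]
        exact pow_le_pow_left₀ (abs_nonneg x) (by linarith) 2
      norm_num at b
      linarith
    nlinarith [s3a]
  have L := L34 (p := cos y) (q := cos x) (r := cos (2 * w) * cos x) (t := cos y / 2)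
    (u := sin x) (v := sin y) (by linarith) cy1 (by linarith) hr' (by linarith) hu hv
  -- the chord
  have m1 : sin (π / 6 + w - |x - y|) ≤ sin (π / 6 + w) - 1 / 2 * |cos y * sin x - cos x * sin y| := by
    have d1 : |x - y| ≤ π := by
      have := abs_sub x y
      linarith
    have d2 : |cos y * sin x - cos x * sin y| = sin |x - y| := by
      have : cos y * sin x - cos x * sin y = sin (x - y) := by rw [sin_sub]; ring
      rw [this]
      rcases le_total 0 (x - y) with hc | hc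
      · rw [abs_of_nonneg hc, abs_of_nonneg]
        exact sin_nonneg_of_nonneg_of_le_pi hc (by rw [abs_of_nonneg hc] at d1; linarith)
      · rw [abs_of_nonpos hc, sin_neg, abs_of_nonpos]
        exact sin_nonpos_of_nonpos_of_neg_pi_le hc (by rw [abs_of_nonpos hc] at d1; linarith)
    rw [d2, sin_sub]
    have s0 : 0 ≤ sin |x - y| := by rw [← d2]; exact abs_nonneg _
    have n1 : 0 ≤ sin (π / 6 + w) := sin_nonneg_of_nonneg_of_le_pi (by linarith) (by linarith)
    have n2 : 1 / 2 ≤ cos (π / 6 + w) := by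
      rw [← cos_pi_div_three]
      exact cos_le_cos_of_nonneg_of_le_pi (by linarith) (by linarith) (by linarith)
    have n3 := cos_le_one |x - y|
    nlinarith
  have T1 : |2 * cos (2 * w) * sin (2 * x) + sin (2 * y)| / 4
      = |cos (2 * w) * cos x * sin x + cos y / 2 * sin y| := by
    have : 2 * cos (2 * w) * sin (2 * x) + sin (2 * y)
        = 4 * (cos (2 * w) * cos x * sin x + cos y / 2 * sin y) := by
      rw [sin_two_mul, sin_two_mul]; ring
    rw [this, abs_mul, abs_of_pos (by norm_num : (0:ℝ) < 4)]; ring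
  have c2x : cos (2 * x) = 1 - 2 * sin x ^ 2 := by rw [cos_two_mul, cos_sq']; ring
  have c2y : cos (2 * y) = 1 - 2 * sin y ^ 2 := by rw [cos_two_mul, cos_sq']; ring
  have n0 : 0 ≤ sin (π / 4 - w) := sin_nonneg_of_nonneg_of_le_pi (by linarith) (by linarith)
  have n4 : sin (π / 4 - w) * cos x ≤ sin (π / 4 - w) := by nlinarith
  have n5 : cos (2 * w) * sin x ^ 2 ≤ sin x ^ 2 := by nlinarith [sq_nonneg (sin x)]
  rw [T1, c2x, c2y]
  linarith

/-- Chords 2 or 5 omitted, `w` positive. -/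
lemma K25 {w x y : ℝ} (hw0 : 0 ≤ w) (hw : w ≤ π / 24) (hwx : w + |x| ≤ π / 12)
    (hy : |y| ≤ π / 12) :
    0 < |2 * cos (2 * w) * sin (2 * x) + sin (2 * y)| / 4 + √3 - 1 + 2 * cos (2 * w) * cos (2 * x)
      + cos (2 * y) - 2 * sin (π / 4 - w - |x|) - 4 * sin (π / 6 + w) * cos (x - y) := by
  have hpi := pi_pos
  have p1 := pi_gt_d4
  have p2 := pi_lt_d4
  have hx0 := abs_nonneg x
  have hx : |x| ≤ π / 12 := by linarith
  have g := g25 hw0 hw
  have hu : |sin x| ≤ 0.2618 := abs_sin_le (by linarith)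
  have hv : |sin y| ≤ 0.2618 := abs_sin_le (by linarith)
  have cx : 0.965 ≤ cos x := cos_lo12 (by linarith)
  have cy : 0.965 ≤ cos y := cos_lo12 hy
  have cw : 0.965 ≤ cos (2 * w) := cos_lo12 (by rw [abs_of_nonneg (by linarith)]; linarith)
  have cw1 : cos (2 * w) ≤ 1 := cos_le_one _
  have cx1 := cos_le_one x
  have cy1 := cos_le_one y
  have hr : 0.93 ≤ cos (2 * w) * cos x := by nlinarith
  have hr1 : cos (2 * w) * cos x ≤ 1 := by nlinarith
  have L := L25 (p := cos y) (q := cos x) (r := cos (2 * w) * cos x) (t := cos y / 2)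
    (u := sin x) (v := sin y) (by linarith) cy1 (by linarith) cx1 hr hr1 (by linarith) hu hv
  have m1 : sin (π / 4 - w - |x|) ≤ sin (π / 4 - w) - 0.707 * |sin x| := by
    have d2 : |sin x| = sin |x| := by
      rcases le_total 0 x with hc | hc
      · rw [abs_of_nonneg hc, abs_of_nonneg]
        exact sin_nonneg_of_nonneg_of_le_pi hc (by rw [abs_of_nonneg hc] at hx; linarith)
      · rw [abs_of_nonpos hc, sin_neg, abs_of_nonpos]
        exact sin_nonpos_of_nonpos_of_neg_pi_le hc (by rw [abs_of_nonpos hc] at hx; linarith)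
    rw [d2, sin_sub, cos_abs]
    have s0 : 0 ≤ sin |x| := by rw [← d2]; exact abs_nonneg _
    have n1 : 0 ≤ sin (π / 4 - w) := sin_nonneg_of_nonneg_of_le_pi (by linarith) (by linarith)
    have n2 : √2 / 2 ≤ cos (π / 4 - w) := by
      rw [← cos_pi_div_four]
      exact cos_le_cos_of_nonneg_of_le_pi (by linarith) (by linarith) (by linarith)
    have x1 := s2a
    nlinarith
  have m2 : 4 * sin (π / 6 + w) * cos (x - y)
      ≤ 4 * sin (π / 6 + w) - (cos y * sin x - cos x * sin y) ^ 2 := by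
    have e : cos y * sin x - cos x * sin y = sin (x - y) := by rw [sin_sub]; ring
    rw [e]
    have h := cos_le_sin (w := x - y)
    have n1 : 1 / 2 ≤ sin (π / 6 + w) := by
      rw [← sin_pi_div_six]
      exact sin_le_sin_of_le_of_le_pi_div_two (by linarith) (by linarith) (by linarith)
    nlinarith [sq_nonneg (sin (x - y))]
  have T1 : |2 * cos (2 * w) * sin (2 * x) + sin (2 * y)| / 4
      = |cos (2 * w) * cos x * sin x + cos y / 2 * sin y| := by
    have : 2 * cos (2 * w) * sin (2 * x) + sin (2 * y)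
        = 4 * (cos (2 * w) * cos x * sin x + cos y / 2 * sin y) := by
      rw [sin_two_mul, sin_two_mul]; ring
    rw [this, abs_mul, abs_of_pos (by norm_num : (0:ℝ) < 4)]; ring
  have c2x : cos (2 * x) = 1 - 2 * sin x ^ 2 := by rw [cos_two_mul, cos_sq']; ring
  have c2y : cos (2 * y) = 1 - 2 * sin y ^ 2 := by rw [cos_two_mul, cos_sq']; ring
  have n5 : cos (2 * w) * sin x ^ 2 ≤ sin x ^ 2 := by nlinarith [sq_nonneg (sin x)]
  rw [T1, c2x, c2y]
  linarith

/-- Chords 2 or 5 omitted, `w` negative. -/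
lemma K25n {w x y : ℝ} (hw0 : w ≤ 0) (hwx : -w + |x| ≤ π / 12) (hy : |y| ≤ π / 12) :
    0 < |2 * cos (2 * w) * sin (2 * x) + sin (2 * y)| / 4 + √3 - 1 + 2 * cos (2 * w) * cos (2 * x)
      + cos (2 * y) - 2 * sin (π / 4 - w - |x|) - 4 * sin (π / 6 + w) * cos (x - y) := by
  have hpi := pi_pos
  have p1 := pi_gt_d4
  have p2 := pi_lt_d4
  have hx0 := abs_nonneg x
  have hx : |x| ≤ π / 12 := by linarith
  have g := g25n (by linarith : -(π / 12) ≤ w) hw0
  have hu : |sin x| ≤ 0.2618 := abs_sin_le (by linarith)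
  have hv : |sin y| ≤ 0.2618 := abs_sin_le (by linarith)
  have cw1 : cos (2 * w) ≤ 1 := cos_le_one _
  have cx1 := cos_le_one x
  have m1 : sin (π / 4 - w - |x|) ≤ sin (π / 4 - w) - 0.5 * |sin x| := by
    have d2 : |sin x| = sin |x| := by
      rcases le_total 0 x with hc | hc
      · rw [abs_of_nonneg hc, abs_of_nonneg]
        exact sin_nonneg_of_nonneg_of_le_pi hc (by rw [abs_of_nonneg hc] at hx; linarith)
      · rw [abs_of_nonpos hc, sin_neg, abs_of_nonpos]
        exact sin_nonpos_of_nonpos_of_neg_pi_le hc (by rw [abs_of_nonpos hc] at hx; linarith)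
    rw [d2, sin_sub, cos_abs]
    have s0 : 0 ≤ sin |x| := by rw [← d2]; exact abs_nonneg _
    have n1 : 0 ≤ sin (π / 4 - w) := sin_nonneg_of_nonneg_of_le_pi (by linarith) (by linarith)
    have n2 : 1 / 2 ≤ cos (π / 4 - w) := by
      rw [← cos_pi_div_three]
      exact cos_le_cos_of_nonneg_of_le_pi (by linarith) (by linarith) (by linarith)
    nlinarith
  have m2 : 4 * sin (π / 6 + w) * cos (x - y) ≤ 4 * sin (π / 6 + w) := by
    have h := cos_le_one (x - y)
    have n1 : 0 ≤ sin (π / 6 + w) :=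
      sin_nonneg_of_nonneg_of_le_pi (by linarith) (by linarith)
    nlinarith
  have T1 : 0 ≤ |2 * cos (2 * w) * sin (2 * x) + sin (2 * y)| := abs_nonneg _
  have c2x : cos (2 * x) = 1 - 2 * sin x ^ 2 := by rw [cos_two_mul, cos_sq']; ring
  have c2y : cos (2 * y) = 1 - 2 * sin y ^ 2 := by rw [cos_two_mul, cos_sq']; ring
  have n5 : cos (2 * w) * sin x ^ 2 ≤ sin x ^ 2 := by nlinarith [sq_nonneg (sin x)]
  have n6 : sin x ^ 2 ≤ 0.2618 * |sin x| := by
    rw [← sq_abs]; nlinarith [abs_nonneg (sin x)]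
  have n7 : sin y ^ 2 ≤ 0.2618 * 0.2618 := by
    rw [← sq_abs]; nlinarith [abs_nonneg (sin y)]
  have n8 := abs_nonneg (sin x)
  rw [c2x, c2y]
  linarith

/-- The three directions on the far side. -/
lemma core {C D O : ℝ} (hC : |C| ≤ π / 6) (hD : |D| ≤ π / 6) (hO : |O| ≤ π / 6) :
    (0 < |sin C - sin D + sin O| / 4 + √3 - 1 + cos C + cos D + cos O
      - 2 * sin (π / 4 - C / 2) - 2 * sin (π / 4 - D / 2) - 2 * sin (π / 6 + (D + O) / 2)) ∨
    (0 < |sin C - sin D + sin O| / 4 + √3 - 1 + cos C + cos D + cos O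
      - 2 * sin (π / 4 - C / 2) - 2 * sin (π / 4 - D / 2) - 2 * sin (π / 6 + (C - O) / 2)) ∨
    (0 < |sin C - sin D + sin O| / 4 + √3 - 1 + cos C + cos D + cos O
      - 2 * sin (π / 4 - C / 2) - 2 * sin (π / 6 + (C - O) / 2) - 2 * sin (π / 6 + (D + O) / 2)) ∨
    (0 < |sin C - sin D + sin O| / 4 + √3 - 1 + cos C + cos D + cos O
      - 2 * sin (π / 4 - D / 2) - 2 * sin (π / 6 + (C - O) / 2)
      - 2 * sin (π / 6 + (D + O) / 2)) := by
  have hpi := pi_pos
  obtain ⟨w, hw⟩ : ∃ w, w = (C + D) / 4 := ⟨_, rfl⟩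
  obtain ⟨x, hx⟩ : ∃ x, x = (C - D) / 4 := ⟨_, rfl⟩
  obtain ⟨y, hy⟩ : ∃ y, y = O / 2 := ⟨_, rfl⟩
  have eC : C = 2 * w + 2 * x := by rw [hw, hx]; ring
  have eD : D = 2 * w - 2 * x := by rw [hw, hx]; ring
  have eO : O = 2 * y := by rw [hy]; ring
  obtain ⟨c1, c2⟩ := abs_le.mp hC
  obtain ⟨d1, d2⟩ := abs_le.mp hD
  have hy' : |y| ≤ π / 12 := by rw [hy, abs_div, abs_two]; linarith
  have wx : w + |x| ≤ π / 12 := by
    rcases abs_cases x with ⟨e, _⟩ | ⟨e, _⟩ <;> rw [e] <;> linarith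
  have wx' : -w + |x| ≤ π / 12 := by
    rcases abs_cases x with ⟨e, _⟩ | ⟨e, _⟩ <;> rw [e] <;> linarith
  have t1 : sin C - sin D + sin O = 2 * cos (2 * w) * sin (2 * x) + sin (2 * y) := by
    rw [eC, eD, eO, sin_add, sin_sub]; ring
  have t2 : cos C + cos D = 2 * cos (2 * w) * cos (2 * x) := by
    rw [eC, eD, cos_add, cos_sub]; ring
  have t3 : cos O = cos (2 * y) := by rw [eO]
  have t4 : 2 * sin (π / 4 - C / 2) + 2 * sin (π / 4 - D / 2) = 4 * sin (π / 4 - w) * cos x := by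
    have q1 : sin (π / 4 - C / 2) = sin (π / 4 - w - x) := by congr 1; rw [eC]; ring
    have q2 : sin (π / 4 - D / 2) = sin (π / 4 - w + x) := by congr 1; rw [eD]; ring
    rw [q1, q2]
    linarith [ss2 (π / 4 - w) x]
  have q3 : sin (π / 6 + (C - O) / 2) = sin (π / 6 + w + (x - y)) := by
    congr 1; rw [eC, eO]; ring
  have q4 : sin (π / 6 + (D + O) / 2) = sin (π / 6 + w - (x - y)) := by
    congr 1; rw [eD, eO]; ring
  have t5 : 2 * sin (π / 6 + (C - O) / 2) + 2 * sin (π / 6 + (D + O) / 2)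
      = 4 * sin (π / 6 + w) * cos (x - y) := by
    rw [q3, q4]
    linarith [ss2 (π / 6 + w) (x - y)]
  rcases le_total (π / 24) w with hc | hc
  · have K := K34 hc wx hy'
    rw [← t1, ← t2, ← t3, ← t4] at K
    rcases le_total 0 (x - y) with h | h
    · left
      rw [abs_of_nonneg h, ← q4] at K
      linarith
    · right; left
      rw [abs_of_nonpos h, sub_neg_eq_add, ← q3] at K
      linarith
  · have K : 0 < |2 * cos (2 * w) * sin (2 * x) + sin (2 * y)| / 4 + √3 - 1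
      + 2 * cos (2 * w) * cos (2 * x)
      + cos (2 * y) - 2 * sin (π / 4 - w - |x|) - 4 * sin (π / 6 + w) * cos (x - y) := by
      rcases le_total 0 w with h | h
      · exact K25 h hc wx hy'
      · exact K25n h wx' hy'
    rw [← t1, ← t2, ← t3, ← t5] at K
    rcases le_total 0 x with h | h
    · right; right; left
      rw [abs_of_nonneg h, show π / 4 - w - x = π / 4 - C / 2 by rw [eC]; ring] at K
      linarith
    · right; right; right
      rw [abs_of_nonpos h, show π / 4 - w - -x = π / 4 - D / 2 by rw [eD]; ring] at K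
      linarith

/-- **The five-chord inequality.**  One of the four chords `c2, c3, c4, c5` can be omitted. -/
theorem base {A B C D O : ℝ} (hA : |A| ≤ π / 6) (hB : |B| ≤ π / 6) (hC : |C| ≤ π / 6)
    (hD : |D| ≤ π / 6) (hO : |O| ≤ π / 6) (hAB : 0 ≤ A + B)
    (hbal : sin C - sin D - sin A + sin B + sin O = 0) :
    (2 * sin ((A + B) / 2) + 2 * sin (π / 6 + (C - O) / 2) + 2 * sin (π / 6 + (D + O) / 2)
      + 2 * sin (π / 3 - (B + D) / 2) < cos A + cos B + cos C + cos D + cos O) ∨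
    (2 * sin ((A + B) / 2) + 2 * sin (π / 3 - (A + C) / 2) + 2 * sin (π / 6 + (D + O) / 2)
      + 2 * sin (π / 3 - (B + D) / 2) < cos A + cos B + cos C + cos D + cos O) ∨
    (2 * sin ((A + B) / 2) + 2 * sin (π / 3 - (A + C) / 2) + 2 * sin (π / 6 + (C - O) / 2)
      + 2 * sin (π / 3 - (B + D) / 2) < cos A + cos B + cos C + cos D + cos O) ∨
    (2 * sin ((A + B) / 2) + 2 * sin (π / 3 - (A + C) / 2) + 2 * sin (π / 6 + (C - O) / 2)
      + 2 * sin (π / 6 + (D + O) / 2) < cos A + cos B + cos C + cos D + cos O) := by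
  have hpi := pi_pos
  have s1 := step1 (abs_le.mp hA).2 (abs_le.mp hB).2 hAB
  have e : sin A - sin B = sin C - sin D + sin O := by linarith
  rw [e] at s1
  have b1 := brk hA hC
  have b2 := brk hB hD
  have hh : ∀ {X : ℝ}, |X| ≤ π / 6 → 1 ≤ 2 * sin (π / 4 - X / 2) := by
    intro X hX
    obtain ⟨x1, x2⟩ := abs_le.mp hX
    have : sin (π / 6) ≤ sin (π / 4 - X / 2) :=
      sin_le_sin_of_le_of_le_pi_div_two (by linarith) (by linarith) (by linarith)
    rw [sin_pi_div_six] at this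
    linarith
  have hA1 := hh hA
  have hB1 := hh hB
  rcases core hC hD hO with h | h | h | h
  · right; left; linarith
  · right; right; left; linarith
  · right; right; right; linarith
  · left; linarith

end Pool.Agent.Helper33.N2
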